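import Pool.Agent.Work.MP_209cb6_gt.Defs

/-!
# Volume step: energy estimate for almost harmonic functions

`κ` is a symmetric Markov kernel with the second moment bound of the heat kernel at time `t`.
For a combination `ψ` of distance functions from far points, truncated at `±δ s`, the energy at
scale `√t` over the ball of radius `2 s` is at most `C δ t m(B(x, 3 s))`, for every `t`.
-/

set_option autoImplicit false
set_option linter.unusedSectionVars false

open MeasureTheory ProbabilityTheory Metric Set Filter Topology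
open scoped ENNReal NNReal

namespace Pool.Agent.BDRY

noncomputable section

universe u

/-- A symmetric Markov kernel with the second moment bound and the overlap property of the heat
kernel at time `t`, for points at distance at most `D0`. -/
structure HK {X : Type u} [MetricSpace X] [MeasurableSpace X] (Nc c0 D0 t : ℝ) (m : Measure X)
    (κ : Kernel X X) : Prop where
  markov : IsMarkovKernel κ
  symm : (m ⊗ₘ κ).map Prod.swap = m ⊗ₘ κ
  mom : ∀ z w : X, dist z w ≤ D0 →
    ∫⁻ y, edist y w ^ 2 ∂(κ z) ≤ ENNReal.ofReal (dist z w ^ 2 + 2 * Nc * t)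
  overlap : ∀ y y' : X, dist y y' ≤ c0 * √t → ∀ A : Set X, MeasurableSet A →
    1 / 2 ≤ κ y A + κ y' Aᶜ

section
variable {X : Type u} [MetricSpace X] [MeasurableSpace X] [BorelSpace X] [ProperSpace X]
  {m : Measure X} {κ : Kernel X X} {Nc c0 D0 t : ℝ}

theorem HK.sq_int (h : HK Nc c0 D0 t m κ) (hN : 0 ≤ Nc) (ht : 0 ≤ t) {z w : X}
    (hzw : dist z w ≤ D0) :
    Integrable (fun y => dist y w ^ 2) (κ z) ∧
      ∫ y, dist y w ^ 2 ∂κ z ≤ dist z w ^ 2 + 2 * Nc * t := by
  have h1 : ∫⁻ y, ENNReal.ofReal (dist y w ^ 2) ∂(κ z)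
      ≤ ENNReal.ofReal (dist z w ^ 2 + 2 * Nc * t) := by
    refine le_trans (le_of_eq ?_) (h.mom z w hzw)
    refine lintegral_congr fun y => ?_
    rw [ENNReal.ofReal_pow dist_nonneg, edist_dist]
  have hm : AEStronglyMeasurable (fun y => dist y w ^ 2) (κ z) :=
    ((continuous_id.dist continuous_const).pow 2).aestronglyMeasurable
  have hnn : 0 ≤ᵐ[κ z] fun y => dist y w ^ 2 := ae_of_all _ fun y => sq_nonneg _
  have hi : Integrable (fun y => dist y w ^ 2) (κ z) := by
    refine ⟨hm, ?_⟩
    rw [hasFiniteIntegral_iff_ofReal hnn]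
    exact h1.trans_lt ENNReal.ofReal_lt_top
  refine ⟨hi, ?_⟩
  rw [integral_eq_lintegral_of_nonneg_ae hnn hm]
  refine ENNReal.toReal_le_of_le_ofReal ?_ h1
  positivity

/-- One-sided bound for the drift of the distance from a far point. -/
theorem HK.drift (h : HK Nc c0 D0 t m κ) (hN : 0 ≤ Nc) (ht : 0 ≤ t) {z p : X} {s : ℝ} (hs : 0 < s)
    (hp : s ≤ dist z p) (hD : dist z p ≤ D0) :
    Integrable (fun y => dist y p - dist z p) (κ z) ∧
      ∫ y, (dist y p - dist z p) ∂κ z ≤ Nc * t / s := by
  have := h.markov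
  obtain ⟨h1, h2⟩ := h.sq_int hN ht hD
  set d := dist z p with hd
  have hd0 : 0 < d := hs.trans_le hp
  have hi : Integrable (fun y => (dist y p ^ 2 + d ^ 2) / (2 * d) - d) (κ z) :=
    ((h1.add (integrable_const _)).div_const _).sub (integrable_const _)
  have hle : ∀ y, dist y p - d ≤ (dist y p ^ 2 + d ^ 2) / (2 * d) - d := by
    intro y
    have : dist y p ≤ (dist y p ^ 2 + d ^ 2) / (2 * d) := by
      rw [le_div_iff₀ (by positivity)]
      nlinarith [sq_nonneg (dist y p - d)]
    linarith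
  have hi2 : Integrable (fun y => dist y p - d) (κ z) := by
    refine Integrable.mono' (g := fun y => (dist y p ^ 2 + d ^ 2) / (2 * d) + d)
      (((h1.add (integrable_const _)).div_const _).add (integrable_const _))
      ((continuous_id.dist continuous_const).sub continuous_const).aestronglyMeasurable
      (ae_of_all _ fun y => ?_)
    rw [Real.norm_eq_abs, abs_le]
    have h3 := hle y
    have h4 : (0 : ℝ) ≤ dist y p := dist_nonneg
    have h5 : 0 ≤ (dist y p ^ 2 + d ^ 2) / (2 * d) := by positivity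
    constructor <;> linarith
  refine ⟨hi2, ?_⟩
  refine (integral_mono hi2 hi hle).trans ?_
  have e1 : Integrable (fun y => (dist y p ^ 2 + d ^ 2) / (2 * d)) (κ z) :=
    (h1.add (integrable_const _)).div_const _
  have e2 : ∫ y, ((dist y p ^ 2 + d ^ 2) / (2 * d) - d) ∂κ z
      = (∫ y, dist y p ^ 2 ∂κ z + d ^ 2) / (2 * d) - d := by
    rw [integral_sub e1 (integrable_const _), integral_div, integral_add h1 (integrable_const _)]
    simp only [integral_const, probReal_univ, smul_eq_mul, one_mul]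
  rw [e2]
  have h6 : (∫ y, dist y p ^ 2 ∂κ z + d ^ 2) / (2 * d) ≤ (2 * d ^ 2 + 2 * Nc * t) / (2 * d) :=
    div_le_div_of_nonneg_right (by linarith) (by positivity)
  have h7 : (2 * d ^ 2 + 2 * Nc * t) / (2 * d) - d = Nc * t / d := by
    field_simp
    ring
  have h8 : Nc * t / d ≤ Nc * t / s := by
    gcongr
  linarith

theorem int_inner [SFinite m] [IsSFiniteKernel κ] {f : X × X → ℝ} (hf : Integrable f (m ⊗ₘ κ)) :
    Integrable (fun z => ∫ y, f (z, y) ∂κ z) m := by
  rw [Measure.compProd] at hf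
  simpa using hf.integral_compProd

theorem HK.pres (h : HK Nc c0 D0 t m κ) :
    MeasurePreserving Prod.swap (m ⊗ₘ κ) (m ⊗ₘ κ) :=
  ⟨measurable_swap, h.symm⟩

theorem HK.swap_int (h : HK Nc c0 D0 t m κ) (H : X × X → ℝ) :
    ∫ q, H q.swap ∂(m ⊗ₘ κ) = ∫ q, H q ∂(m ⊗ₘ κ) :=
  h.pres.integral_comp MeasurableEquiv.prodComm.measurableEmbedding H

theorem HK.swap_integrable (h : HK Nc c0 D0 t m κ) {H : X × X → ℝ}
    (hH : Integrable H (m ⊗ₘ κ)) : Integrable (fun q => H q.swap) (m ⊗ₘ κ) :=
  h.pres.integrable_comp_of_integrable hH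

/-- The indicator of the closed ball. -/
def ind (x : X) (R : ℝ) (z : X) : ℝ := (closedBall x R).indicator (fun _ => (1 : ℝ)) z

theorem ind_nonneg (x : X) (R : ℝ) (z : X) : 0 ≤ ind x R z :=
  indicator_nonneg (fun _ _ => zero_le_one) z

theorem ind_le_one (x : X) (R : ℝ) (z : X) : ind x R z ≤ 1 := by
  unfold ind
  exact indicator_le_self' (fun _ _ => zero_le_one) z

theorem ind_of_mem {x : X} {R : ℝ} {z : X} (h : z ∈ closedBall x R) : ind x R z = 1 := by
  unfold ind
  rw [indicator_of_mem h]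

theorem ind_of_notMem {x : X} {R : ℝ} {z : X} (h : z ∉ closedBall x R) : ind x R z = 0 := by
  unfold ind
  rw [indicator_of_notMem h]

theorem measurable_ind (x : X) (R : ℝ) : Measurable (ind x R) :=
  measurable_const.indicator isClosed_closedBall.measurableSet

variable [SFinite m]

theorem HK.int_ind (h : HK Nc c0 D0 t m κ) {x : X} {R : ℝ} (hfin : m (closedBall x R) < ∞) :
    Integrable (fun q : X × X => ind x R q.1) (m ⊗ₘ κ) := by
  have := h.markov
  have hmeas : Measurable (fun q : X × X => ind x R q.1) := (measurable_ind x R).comp measurable_fst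
  refine ⟨hmeas.aestronglyMeasurable, ?_⟩
  have hnn : 0 ≤ᵐ[m ⊗ₘ κ] fun q : X × X => ind x R q.1 := ae_of_all _ fun q => ind_nonneg x R q.1
  rw [hasFiniteIntegral_iff_ofReal hnn, Measure.lintegral_compProd hmeas.ennreal_ofReal]
  simp only [lintegral_const, measure_univ, mul_one]
  calc ∫⁻ z, ENNReal.ofReal (ind x R z) ∂m
      = ∫⁻ z, (closedBall x R).indicator 1 z ∂m := by
        refine lintegral_congr fun z => ?_
        by_cases hz : z ∈ closedBall x R
        · rw [ind_of_mem hz, indicator_of_mem hz]; simp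
        · rw [ind_of_notMem hz, indicator_of_notMem hz]; simp
    _ = m (closedBall x R) := by
        rw [lintegral_indicator_one isClosed_closedBall.measurableSet]
    _ < ∞ := hfin

/-- The second moment over a ball. -/
theorem HK.int_sq (h : HK Nc c0 D0 t m κ) (hN : 0 ≤ Nc) (ht : 0 ≤ t) (hD : 0 ≤ D0) {x : X} {R : ℝ}
    (hfin : m (closedBall x R) < ∞) :
    Integrable (fun q : X × X => ind x R q.1 * dist q.1 q.2 ^ 2) (m ⊗ₘ κ) ∧
      ∫ q, ind x R q.1 * dist q.1 q.2 ^ 2 ∂(m ⊗ₘ κ) ≤ 2 * Nc * t * m.real (closedBall x R) := by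
  have := h.markov
  have hmeas : Measurable (fun q : X × X => ind x R q.1 * dist q.1 q.2 ^ 2) :=
    ((measurable_ind x R).comp measurable_fst).mul (measurable_dist.pow_const 2)
  have hnn : 0 ≤ᵐ[m ⊗ₘ κ] fun q : X × X => ind x R q.1 * dist q.1 q.2 ^ 2 :=
    ae_of_all _ fun q => mul_nonneg (ind_nonneg x R q.1) (sq_nonneg _)
  have h1 : ∫⁻ q, ENNReal.ofReal (ind x R q.1 * dist q.1 q.2 ^ 2) ∂(m ⊗ₘ κ)
      ≤ ENNReal.ofReal (2 * Nc * t * m.real (closedBall x R)) := by
    rw [Measure.lintegral_compProd hmeas.ennreal_ofReal]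
    calc ∫⁻ z, ∫⁻ y, ENNReal.ofReal (ind x R z * dist z y ^ 2) ∂κ z ∂m
        ≤ ∫⁻ z, (closedBall x R).indicator (fun _ => ENNReal.ofReal (2 * Nc * t)) z ∂m := by
          refine lintegral_mono fun z => ?_
          by_cases hz : z ∈ closedBall x R
          · rw [indicator_of_mem hz]
            have h2 := h.mom z z (by rw [dist_self]; exact hD)
            rw [dist_self, zero_pow two_ne_zero, zero_add] at h2
            refine le_trans (le_of_eq ?_) h2
            refine lintegral_congr fun y => ?_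
            rw [ind_of_mem hz, one_mul, ENNReal.ofReal_pow dist_nonneg, dist_comm, edist_dist]
          · rw [indicator_of_notMem hz, ind_of_notMem hz]
            simp
      _ = ENNReal.ofReal (2 * Nc * t) * m (closedBall x R) := by
          rw [lintegral_indicator_const isClosed_closedBall.measurableSet]
      _ = ENNReal.ofReal (2 * Nc * t * m.real (closedBall x R)) := by
          rw [ENNReal.ofReal_mul (q := m.real (closedBall x R)) (by positivity : 0 ≤ 2 * Nc * t),
            Measure.real, ENNReal.ofReal_toReal hfin.ne]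
  refine ⟨⟨hmeas.aestronglyMeasurable, ?_⟩, ?_⟩
  · rw [hasFiniteIntegral_iff_ofReal hnn]
    exact h1.trans_lt ENNReal.ofReal_lt_top
  · rw [integral_eq_lintegral_of_nonneg_ae hnn hmeas.aestronglyMeasurable]
    exact ENNReal.toReal_le_of_le_ofReal (by positivity) h1

/-- Integrability of a weight times a function of linear growth. -/
theorem HK.int_dom (h : HK Nc c0 D0 t m κ) (hN : 0 ≤ Nc) (ht : 0 ≤ t) (hD : 0 ≤ D0) {x : X} {R : ℝ}
    (hfin : m (closedBall x R) < ∞) {H : X × X → ℝ} (hH : Measurable H) {C : ℝ}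
    (hC : ∀ z y, |H (z, y)| ≤ C * ind x R z * (1 + dist z y ^ 2)) :
    Integrable H (m ⊗ₘ κ) := by
  have h1 := h.int_ind hfin
  have h2 := (h.int_sq hN ht hD hfin).1
  refine Integrable.mono' (g := fun q : X × X => C * ind x R q.1 + C * (ind x R q.1 *
    dist q.1 q.2 ^ 2)) ((h1.const_mul C).add (h2.const_mul C)) hH.aestronglyMeasurable
    (ae_of_all _ fun q => ?_)
  have h3 := hC q.1 q.2
  rw [Real.norm_eq_abs]
  refine h3.trans (le_of_eq ?_)
  ring

/-- One-sided bound for the weighted drift. -/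
theorem HK.wdrift (h : HK Nc c0 D0 t m κ) (hN : 0 ≤ Nc) (ht : 0 ≤ t) (hD : 0 ≤ D0) {x p : X}
    {R s : ℝ} (hs : 0 < s) (hfin : m (closedBall x R) < ∞)
    (hp : ∀ z ∈ closedBall x R, s ≤ dist z p ∧ dist z p ≤ D0) {w : X → ℝ} (hw : Measurable w)
    {W : ℝ} (hw0 : ∀ z, 0 ≤ w z) (hwW : ∀ z, w z ≤ W * ind x R z) :
    ∫ q : X × X, w q.1 * (dist q.2 p - dist q.1 p) ∂(m ⊗ₘ κ)
      ≤ W * (Nc * t / s) * m.real (closedBall x R) := by
  have := h.markov
  have hint : Integrable (fun q : X × X => w q.1 * (dist q.2 p - dist q.1 p)) (m ⊗ₘ κ) := by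
    refine h.int_dom hN ht hD hfin (C := W) ?_ ?_
    · exact (hw.comp measurable_fst).mul ((measurable_snd.dist measurable_const).sub
        (measurable_fst.dist measurable_const))
    · intro z y
      have e1 : |dist y p - dist z p| ≤ 1 + dist z y ^ 2 := by
        have e2 : |dist y p - dist z p| ≤ dist z y := by
          rw [dist_comm z y]; exact abs_dist_sub_le y z p
        nlinarith [sq_nonneg (dist z y - 1), dist_nonneg (x := z) (y := y)]
      show |w z * (dist y p - dist z p)| ≤ _
      rw [abs_mul, abs_of_nonneg (hw0 z)]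
      exact mul_le_mul (hwW z) e1 (abs_nonneg _) ((hw0 z).trans (hwW z))
  rw [Measure.integral_compProd hint]
  have h2 : ∫ z, W * (Nc * t / s) * ind x R z ∂m = W * (Nc * t / s) * m.real (closedBall x R) := by
    rw [integral_const_mul]
    congr 1
    unfold ind
    rw [integral_indicator isClosed_closedBall.measurableSet]
    simp
  rw [← h2]
  refine integral_mono (int_inner hint) ?_ ?_
  · refine Integrable.const_mul ?_ _
    unfold ind
    exact (integrableOn_const hfin.ne).integrable_indicator isClosed_closedBall.measurableSet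
  · intro z
    show ∫ y, w z * (dist y p - dist z p) ∂κ z ≤ W * (Nc * t / s) * ind x R z
    by_cases hz : z ∈ closedBall x R
    · obtain ⟨h3, h4⟩ := hp z hz
      obtain ⟨h5, h6⟩ := h.drift hN ht hs h3 h4
      rw [integral_const_mul]
      have h7 : 0 ≤ Nc * t / s := by positivity
      calc w z * ∫ y, (dist y p - dist z p) ∂κ z ≤ w z * (Nc * t / s) :=
            mul_le_mul_of_nonneg_left h6 (hw0 z)
        _ ≤ W * ind x R z * (Nc * t / s) := mul_le_mul_of_nonneg_right (hwW z) h7
        _ = _ := by ring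
    · have h8 : w z = 0 := le_antisymm (by
        have := hwW z
        rw [ind_of_notMem hz, mul_zero] at this
        exact this) (hw0 z)
      rw [ind_of_notMem hz, h8]
      simp

/-! ### The cut-off function -/

/-- Lipschitz cut-off: `1` on the ball of radius `2 s`, `0` off the ball of radius `3 s`. -/
def cut (x : X) (s : ℝ) (z : X) : ℝ := max 0 (min 1 (3 - dist z x / s))

theorem cut_nonneg (x : X) (s : ℝ) (z : X) : 0 ≤ cut x s z := le_max_left _ _

theorem cut_le_one (x : X) (s : ℝ) (z : X) : cut x s z ≤ 1 :=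
  max_le zero_le_one (min_le_left _ _)

theorem cut_eq_one {x : X} {s : ℝ} (hs : 0 < s) {z : X} (hz : z ∈ closedBall x (2 * s)) :
    cut x s z = 1 := by
  unfold cut
  have h1 : dist z x / s ≤ 2 := by rw [div_le_iff₀ hs]; exact hz
  rw [min_eq_left (by linarith), max_eq_right zero_le_one]

theorem cut_le_ind {x : X} {s : ℝ} (hs : 0 < s) (z : X) : cut x s z ≤ ind x (3 * s) z := by
  by_cases hz : z ∈ closedBall x (3 * s)
  · rw [ind_of_mem hz]; exact cut_le_one x s z
  · rw [ind_of_notMem hz]
    rw [mem_closedBall, not_le] at hz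
    unfold cut
    have h1 : 3 < dist z x / s := by rw [lt_div_iff₀ hs]; exact hz
    exact max_le le_rfl ((min_le_right _ _).trans (by linarith))

theorem cut_lip {x : X} {s : ℝ} (hs : 0 < s) (z y : X) : |cut x s z - cut x s y| ≤ dist z y / s := by
  unfold cut
  have h1 : |(3 - dist z x / s) - (3 - dist y x / s)| ≤ dist z y / s := by
    have h2 : (3 - dist z x / s) - (3 - dist y x / s) = (dist y x - dist z x) / s := by ring
    rw [h2, abs_div, abs_of_pos hs]
    apply div_le_div_of_nonneg_right _ hs.le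
    rw [dist_comm z y]
    exact abs_dist_sub_le y z x
  refine le_trans ?_ h1
  refine (abs_max_sub_max_le_max _ _ _ _).trans ?_
  rw [sub_self, abs_zero]
  refine max_le (abs_nonneg _) ?_
  refine (abs_min_sub_min_le_max _ _ _ _).trans ?_
  rw [sub_self, abs_zero]
  exact max_le (abs_nonneg _) le_rfl

theorem continuous_cut (x : X) (s : ℝ) : Continuous (cut x s) := by
  unfold cut
  exact continuous_const.max (continuous_const.min (continuous_const.sub
    ((continuous_id.dist continuous_const).div_const s)))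

/-- Difference of the cut-off function, with support. -/
theorem cut_diff {x : X} {s : ℝ} (hs : 0 < s) (z y : X) :
    |cut x s z - cut x s y| ≤ (ind x (3 * s) z + ind x (3 * s) y) * (dist z y / s) := by
  have h1 := cut_lip (x := x) hs z y
  have hd : 0 ≤ dist z y / s := div_nonneg dist_nonneg hs.le
  by_cases hz : z ∈ closedBall x (3 * s)
  · rw [ind_of_mem hz]
    nlinarith [ind_nonneg x (3 * s) y]
  · by_cases hy : y ∈ closedBall x (3 * s)
    · rw [ind_of_mem hy]
      nlinarith [ind_nonneg x (3 * s) z]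
    · have h2 : cut x s z = 0 :=
        le_antisymm ((cut_le_ind hs z).trans (le_of_eq (ind_of_notMem hz))) (cut_nonneg x s z)
      have h3 : cut x s y = 0 :=
        le_antisymm ((cut_le_ind hs y).trans (le_of_eq (ind_of_notMem hy))) (cut_nonneg x s y)
      rw [h2, h3, sub_self, abs_zero]
      exact mul_nonneg (add_nonneg (ind_nonneg _ _ _) (ind_nonneg _ _ _)) hd

/-- Bound of an integral whose integrand contains a difference of the cut-off function. -/
theorem HK.int_cross (h : HK Nc c0 D0 t m κ) (hN : 0 ≤ Nc) (ht : 0 ≤ t) (hD : 0 ≤ D0) {x : X}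
    {s : ℝ} (hs : 0 < s) (hfin : m (closedBall x (3 * s)) < ∞) {H : X × X → ℝ} (hH : Measurable H)
    {C : ℝ} (hC0 : 0 ≤ C)
    (hC : ∀ z y, |H (z, y)| ≤ C * |cut x s z - cut x s y| * dist z y) :
    Integrable H (m ⊗ₘ κ) ∧
      |∫ q, H q ∂(m ⊗ₘ κ)| ≤ 4 * C * (Nc * t / s) * m.real (closedBall x (3 * s)) := by
  obtain ⟨h1, h2⟩ := h.int_sq hN ht hD hfin
  have h3 := h.swap_integrable h1
  have h4 := h.swap_int (fun q => ind x (3 * s) q.1 * dist q.1 q.2 ^ 2)
  set G : X × X → ℝ := fun q => ind x (3 * s) q.1 * dist q.1 q.2 ^ 2 with hG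
  have hb : ∀ q, |H q| ≤ C / s * (G q + G q.swap) := by
    intro q
    have h5 := hC q.1 q.2
    have h6 := cut_diff (x := x) hs q.1 q.2
    have h7 : C * |cut x s q.1 - cut x s q.2| * dist q.1 q.2
        ≤ C * ((ind x (3 * s) q.1 + ind x (3 * s) q.2) * (dist q.1 q.2 / s)) * dist q.1 q.2 := by
      gcongr
    refine (h5.trans h7).trans (le_of_eq ?_)
    simp only [hG, Prod.fst_swap, Prod.snd_swap]
    rw [dist_comm q.2 q.1]
    field_simp
  have hsum : Integrable (fun q => C / s * (G q + G q.swap)) (m ⊗ₘ κ) :=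
    (h1.add h3).const_mul _
  refine ⟨Integrable.mono' hsum hH.aestronglyMeasurable (ae_of_all _ hb), ?_⟩
  have h8 : ∫ q, C / s * (G q + G q.swap) ∂(m ⊗ₘ κ) ≤
      C / s * (2 * (2 * Nc * t * m.real (closedBall x (3 * s)))) := by
    rw [integral_const_mul, integral_add h1 h3, h4]
    have : 0 ≤ C / s := by positivity
    refine mul_le_mul_of_nonneg_left ?_ this
    linarith
  refine ((abs_integral_le_integral_abs).trans (integral_mono_of_nonneg
    (ae_of_all _ fun q => abs_nonneg _) hsum (ae_of_all _ hb))).trans (h8.trans (le_of_eq ?_))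
  ring

/-- Two-sided bound for the drift with bounded weight. -/
theorem HK.drift_abs (h : HK Nc c0 D0 t m κ) (hN : 0 ≤ Nc) (ht : 0 ≤ t) (hD : 0 ≤ D0) {x p : X}
    {s : ℝ} (hs : 0 < s) (hfin : m (closedBall x (3 * s)) < ∞)
    (hp : ∀ z ∈ closedBall x (3 * s), s ≤ dist z p ∧ dist z p ≤ D0) {g : X → ℝ} (hg : Measurable g)
    {W : ℝ} (hW : ∀ z, |g z| ≤ W) :
    Integrable (fun q : X × X => cut x s q.1 * g q.1 * (dist q.2 p - dist q.1 p)) (m ⊗ₘ κ) ∧
    |∫ q : X × X, cut x s q.1 * g q.1 * (dist q.2 p - dist q.1 p) ∂(m ⊗ₘ κ)|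
      ≤ 4 * W * (Nc * t / s) * m.real (closedBall x (3 * s)) := by
  have hcm := (continuous_cut x s).measurable
  have hW0 : 0 ≤ W := (abs_nonneg (g x)).trans (hW x)
  have key : ∀ (w : X → ℝ), Measurable w → ∀ V : ℝ, (∀ z, |w z| ≤ V * ind x (3 * s) z) →
      Integrable (fun q : X × X => w q.1 * (dist q.2 p - dist q.1 p)) (m ⊗ₘ κ) := by
    intro w hw V hV
    refine h.int_dom hN ht hD hfin (C := V) ?_ ?_
    · exact (hw.comp measurable_fst).mul ((measurable_snd.dist measurable_const).sub
        (measurable_fst.dist measurable_const))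
    · intro z y
      have e1 : |dist y p - dist z p| ≤ 1 + dist z y ^ 2 := by
        have e2 : |dist y p - dist z p| ≤ dist z y := by
          rw [dist_comm z y]; exact abs_dist_sub_le y z p
        nlinarith [sq_nonneg (dist z y - 1), dist_nonneg (x := z) (y := y)]
      show |w z * (dist y p - dist z p)| ≤ _
      rw [abs_mul]
      exact mul_le_mul (hV z) e1 (abs_nonneg _) ((abs_nonneg _).trans (hV z))
  have i1 : Integrable (fun q : X × X => cut x s q.1 * (dist q.2 p - dist q.1 p)) (m ⊗ₘ κ) := by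
    refine key (cut x s) hcm 1 fun z => ?_
    rw [abs_of_nonneg (cut_nonneg x s z), one_mul]
    exact cut_le_ind hs z
  have i2 : Integrable (fun q : X × X => cut x s q.1 * g q.1 * (dist q.2 p - dist q.1 p))
      (m ⊗ₘ κ) := by
    refine key (fun z => cut x s z * g z) (hcm.mul hg) W fun z => ?_
    rw [abs_mul, abs_of_nonneg (cut_nonneg x s z), mul_comm W]
    exact mul_le_mul (cut_le_ind hs z) (hW z) (abs_nonneg _) (ind_nonneg _ _ _)
  refine ⟨i2, ?_⟩
  set e := Nc * t / s with he
  set M := m.real (closedBall x (3 * s)) with hM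
  set T1 := ∫ q : X × X, cut x s q.1 * (dist q.2 p - dist q.1 p) ∂(m ⊗ₘ κ) with hT1
  set T2 := ∫ q : X × X, cut x s q.1 * g q.1 * (dist q.2 p - dist q.1 p) ∂(m ⊗ₘ κ) with hT2
  -- the cut-off function alone
  have b1 : |T1| ≤ 2 * e * M := by
    obtain ⟨i3, b3⟩ := h.int_cross hN ht hD hs hfin
      (H := fun q : X × X => (cut x s q.1 - cut x s q.2) * (dist q.2 p - dist q.1 p))
      (((hcm.comp measurable_fst).sub (hcm.comp measurable_snd)).mul
        ((measurable_snd.dist measurable_const).sub (measurable_fst.dist measurable_const)))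
      (C := 1) zero_le_one (fun z y => by
        show |(cut x s z - cut x s y) * (dist y p - dist z p)| ≤ _
        rw [abs_mul, one_mul]
        refine mul_le_mul_of_nonneg_left ?_ (abs_nonneg _)
        rw [dist_comm z y]
        exact abs_dist_sub_le y z p)
    have e1 : ∫ q : X × X, (cut x s q.1 - cut x s q.2) * (dist q.2 p - dist q.1 p) ∂(m ⊗ₘ κ)
        = 2 * T1 := by
      have e2 := h.swap_int (fun q : X × X => cut x s q.1 * (dist q.2 p - dist q.1 p))
      have i4 := h.swap_integrable i1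
      have e3 : (fun q : X × X => (cut x s q.1 - cut x s q.2) * (dist q.2 p - dist q.1 p))
          = fun q => (cut x s q.1 * (dist q.2 p - dist q.1 p)) +
            (cut x s q.swap.1 * (dist q.swap.2 p - dist q.swap.1 p)) := by
        funext q
        simp only [Prod.fst_swap, Prod.snd_swap]
        ring
      rw [e3, integral_add i1 i4, e2, ← hT1]
      ring
    rw [e1, abs_mul, abs_of_pos (by norm_num : (0 : ℝ) < 2)] at b3
    linarith
  -- one-sided bounds
  have b2 : ∀ σ : ℝ, (σ = 1 ∨ σ = -1) → W * T1 + σ * T2 ≤ 2 * W * e * M := by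
    intro σ hσ
    have hσg : ∀ z, 0 ≤ W + σ * g z ∧ W + σ * g z ≤ 2 * W := by
      intro z
      have := abs_le.1 (hW z)
      rcases hσ with rfl | rfl <;> constructor <;> linarith [this.1, this.2]
    have h5 := h.wdrift hN ht hD hs hfin hp (w := fun z => cut x s z * (W + σ * g z))
      (hcm.mul (measurable_const.add (hg.const_mul σ))) (W := 2 * W)
      (fun z => mul_nonneg (cut_nonneg _ _ _) (hσg z).1)
      (fun z => by
        rw [mul_comm (2 * W)]
        exact mul_le_mul (cut_le_ind hs z) (hσg z).2 (hσg z).1 (ind_nonneg _ _ _))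
    refine le_trans (le_of_eq ?_) h5
    have e4 : (fun q : X × X => cut x s q.1 * (W + σ * g q.1) * (dist q.2 p - dist q.1 p))
        = fun q => W * (cut x s q.1 * (dist q.2 p - dist q.1 p)) +
          σ * (cut x s q.1 * g q.1 * (dist q.2 p - dist q.1 p)) := by
      funext q
      ring
    rw [e4, integral_add (i1.const_mul W) (i2.const_mul σ), integral_const_mul, integral_const_mul]
  have c1 := b2 1 (Or.inl rfl)
  have c2 := b2 (-1) (Or.inr rfl)
  have c3 : |W * T1| ≤ W * (2 * e * M) := by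
    rw [abs_mul, abs_of_nonneg hW0]
    exact mul_le_mul_of_nonneg_left b1 hW0
  have c4 := abs_le.1 c3
  rw [abs_le]
  constructor <;> linarith [c4.1, c4.2]

/-- Truncation at `±W`. -/
def clip (W r : ℝ) : ℝ := max (-W) (min W r)

theorem abs_clip_le {W : ℝ} (hW : 0 ≤ W) (r : ℝ) : |clip W r| ≤ W := by
  unfold clip
  rw [abs_le]
  exact ⟨le_max_left _ _, max_le (by linarith) (min_le_left _ _)⟩

theorem clip_of_abs_le {W r : ℝ} (h : |r| ≤ W) : clip W r = r := by
  unfold clip
  have := abs_le.1 h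
  rw [min_eq_right this.2, max_eq_right this.1]

theorem clip_mono {W r r' : ℝ} (h : r ≤ r') : clip W r ≤ clip W r' := by
  unfold clip
  exact max_le_max le_rfl (min_le_min le_rfl h)

theorem clip_diff_le {W r r' : ℝ} (h : r ≤ r') : clip W r' - clip W r ≤ r' - r := by
  have h1 : |clip W r' - clip W r| ≤ |r' - r| := by
    unfold clip
    refine (abs_max_sub_max_le_max _ _ _ _).trans ?_
    rw [sub_self, abs_zero]
    refine max_le (abs_nonneg _) ((abs_min_sub_min_le_max _ _ _ _).trans ?_)
    rw [sub_self, abs_zero]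
    exact max_le (abs_nonneg _) le_rfl
  rw [abs_of_nonneg (sub_nonneg.2 h)] at h1
  exact (le_abs_self _).trans h1

theorem clip_sq_le {W r r' : ℝ} :
    (clip W r - clip W r') ^ 2 ≤ (clip W r - clip W r') * (r - r') := by
  rcases le_total r r' with h | h
  · have h1 := clip_mono (W := W) h
    have h2 := clip_diff_le (W := W) h
    nlinarith
  · have h1 := clip_mono (W := W) h
    have h2 := clip_diff_le (W := W) h
    nlinarith

theorem continuous_clip (W : ℝ) : Continuous (clip W) := by
  unfold clip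
  exact continuous_const.max (continuous_const.min continuous_id)

/-- A combination of distance functions. -/
def comb {ι : Type} [Fintype ι] (C : ℝ) (a : ι → ℝ) (p : ι → X) (z : X) : ℝ :=
  C + ∑ i, a i * dist z (p i)

theorem comb_sub {ι : Type} [Fintype ι] (C : ℝ) (a : ι → ℝ) (p : ι → X) (z y : X) :
    comb C a p z - comb C a p y = ∑ i, a i * (dist z (p i) - dist y (p i)) := by
  unfold comb
  rw [add_sub_add_left_eq_sub, ← Finset.sum_sub_distrib]
  exact Finset.sum_congr rfl fun i _ => by ring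

theorem comb_lip {ι : Type} [Fintype ι] (C : ℝ) (a : ι → ℝ) (p : ι → X) {Λ : ℝ}
    (ha : ∑ i, |a i| ≤ Λ) (z y : X) : |comb C a p z - comb C a p y| ≤ Λ * dist z y := by
  rw [comb_sub]
  refine (Finset.abs_sum_le_sum_abs _ _).trans ?_
  calc ∑ i, |a i * (dist z (p i) - dist y (p i))| ≤ ∑ i, |a i| * dist z y := by
        refine Finset.sum_le_sum fun i _ => ?_
        rw [abs_mul]
        exact mul_le_mul_of_nonneg_left (abs_dist_sub_le z y (p i)) (abs_nonneg _)
    _ = (∑ i, |a i|) * dist z y := by rw [Finset.sum_mul]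
    _ ≤ Λ * dist z y := mul_le_mul_of_nonneg_right ha dist_nonneg

theorem continuous_comb {ι : Type} [Fintype ι] (C : ℝ) (a : ι → ℝ) (p : ι → X) :
    Continuous (comb C a p) := by
  unfold comb
  exact continuous_const.add (continuous_finsetSum _ fun i _ =>
    continuous_const.mul (continuous_id.dist continuous_const))

/-- **Energy estimate.** -/
theorem HK.energy (h : HK Nc c0 D0 t m κ) (hN : 0 ≤ Nc) (ht : 0 ≤ t) (hD : 0 ≤ D0) {x : X}
    {s δ Λ : ℝ} (hs : 0 < s) (hδ : 0 ≤ δ) (hfin : m (closedBall x (3 * s)) < ∞)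
    {ι : Type} [Fintype ι] (C : ℝ) (a : ι → ℝ) (p : ι → X) (ha : ∑ i, |a i| ≤ Λ)
    (hp : ∀ i, ∀ z ∈ closedBall x (3 * s), s ≤ dist z (p i) ∧ dist z (p i) ≤ D0) :
    ∫⁻ z in closedBall x (2 * s), ∫⁻ y, ENNReal.ofReal
      ((clip (δ * s) (comb C a p z) - clip (δ * s) (comb C a p y)) ^ 2) ∂κ z ∂m
      ≤ ENNReal.ofReal (12 * Λ * δ * Nc * t * m.real (closedBall x (3 * s))) := by
  have := h.markov
  set ψ := comb C a p with hψ
  have hψc : Continuous ψ := continuous_comb C a p
  have hψl := comb_lip C a p ha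
  rw [← hψ] at hψl
  set W := δ * s with hW
  have hW0 : 0 ≤ W := by positivity
  set f : X → ℝ := fun z => clip W (ψ z) with hf
  have hfc : Continuous f := (continuous_clip W).comp hψc
  have hfW : ∀ z, |f z| ≤ W := fun z => abs_clip_le hW0 _
  have hcm := (continuous_cut x s).measurable
  have hΛ : 0 ≤ Λ := (Finset.sum_nonneg fun i _ => abs_nonneg _).trans ha
  set e := Nc * t / s with he
  set M := m.real (closedBall x (3 * s)) with hM
  set P : X × X → ℝ := fun q => cut x s q.1 * ((f q.1 - f q.2) * (ψ q.1 - ψ q.2)) with hP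
  set Q : X × X → ℝ := fun q => cut x s q.1 * f q.1 * (ψ q.1 - ψ q.2) with hQ
  set R : X × X → ℝ := fun q => (f q.1 + f q.2) * (cut x s q.1 - cut x s q.2) * (ψ q.1 - ψ q.2)
    with hR
  have hP0 : ∀ q, 0 ≤ P q := fun q =>
    mul_nonneg (cut_nonneg _ _ _) ((sq_nonneg _).trans clip_sq_le)
  have hflip : ∀ z y, |f z - f y| ≤ Λ * dist z y := by
    intro z y
    refine le_trans ?_ (hψl z y)
    rcases le_total (ψ z) (ψ y) with h1 | h1
    · have h2 := clip_mono (W := W) h1
      have h3 := clip_diff_le (W := W) h1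
      rw [abs_sub_comm, abs_of_nonneg (sub_nonneg.2 h2), abs_sub_comm,
        abs_of_nonneg (sub_nonneg.2 h1)]
      exact h3
    · have h2 := clip_mono (W := W) h1
      have h3 := clip_diff_le (W := W) h1
      rw [abs_of_nonneg (sub_nonneg.2 h2), abs_of_nonneg (sub_nonneg.2 h1)]
      exact h3
  -- integrability
  have iP : Integrable P (m ⊗ₘ κ) := by
    refine h.int_dom hN ht hD hfin (C := Λ ^ 2) ?_ ?_
    · exact (hcm.comp measurable_fst).mul (((hfc.measurable.comp measurable_fst).sub
        (hfc.measurable.comp measurable_snd)).mul ((hψc.measurable.comp measurable_fst).sub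
        (hψc.measurable.comp measurable_snd)))
    · intro z y
      show |cut x s z * ((f z - f y) * (ψ z - ψ y))| ≤ _
      rw [abs_mul, abs_mul, abs_of_nonneg (cut_nonneg x s z)]
      have h1 : |f z - f y| * |ψ z - ψ y| ≤ (Λ * dist z y) * (Λ * dist z y) :=
        mul_le_mul (hflip z y) (hψl z y) (abs_nonneg _) (by positivity)
      calc cut x s z * (|f z - f y| * |ψ z - ψ y|)
          ≤ ind x (3 * s) z * ((Λ * dist z y) * (Λ * dist z y)) :=
            mul_le_mul (cut_le_ind hs z) h1 (by positivity) (ind_nonneg _ _ _)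
        _ ≤ Λ ^ 2 * ind x (3 * s) z * (1 + dist z y ^ 2) := by
            have := ind_nonneg x (3 * s) z
            nlinarith [mul_nonneg (sq_nonneg Λ) this]
  have hQsum : ∀ q, Q q = ∑ i, (-(a i)) *
      (cut x s q.1 * f q.1 * (dist q.2 (p i) - dist q.1 (p i))) := by
    intro q
    show cut x s q.1 * f q.1 * (ψ q.1 - ψ q.2) = _
    rw [hψ, comb_sub, Finset.mul_sum]
    exact Finset.sum_congr rfl fun i _ => by ring
  have hda := fun i => h.drift_abs hN ht hD hs hfin (hp i) hfc.measurable hfW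
  have iQ : Integrable Q (m ⊗ₘ κ) := by
    rw [show Q = fun q => ∑ i, (-(a i)) *
      (cut x s q.1 * f q.1 * (dist q.2 (p i) - dist q.1 (p i))) from funext hQsum]
    exact integrable_finsetSum _ fun i _ => (hda i).1.const_mul _
  have bQ : |∫ q, Q q ∂(m ⊗ₘ κ)| ≤ 4 * Λ * W * e * M := by
    rw [show Q = fun q => ∑ i, (-(a i)) *
      (cut x s q.1 * f q.1 * (dist q.2 (p i) - dist q.1 (p i))) from funext hQsum,
      integral_finsetSum _ fun i _ => (hda i).1.const_mul _]
    refine (Finset.abs_sum_le_sum_abs _ _).trans ?_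
    have h1 : ∀ i ∈ Finset.univ, |∫ q : X × X, (-(a i)) *
        (cut x s q.1 * f q.1 * (dist q.2 (p i) - dist q.1 (p i))) ∂(m ⊗ₘ κ)|
        ≤ |a i| * (4 * W * e * M) := by
      intro i _
      rw [integral_const_mul, abs_mul, abs_neg]
      exact mul_le_mul_of_nonneg_left (hda i).2 (abs_nonneg _)
    refine (Finset.sum_le_sum h1).trans ?_
    rw [← Finset.sum_mul]
    have h2 : 0 ≤ 4 * W * e * M := by positivity
    calc (∑ i, |a i|) * (4 * W * e * M) ≤ Λ * (4 * W * e * M) :=
          mul_le_mul_of_nonneg_right ha h2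
      _ = _ := by ring
  obtain ⟨iR, bR⟩ := h.int_cross hN ht hD hs hfin (H := R)
    ((((hfc.measurable.comp measurable_fst).add (hfc.measurable.comp measurable_snd)).mul
      ((hcm.comp measurable_fst).sub (hcm.comp measurable_snd))).mul
      ((hψc.measurable.comp measurable_fst).sub (hψc.measurable.comp measurable_snd)))
    (C := 2 * W * Λ) (by positivity) (fun z y => by
      show |(f z + f y) * (cut x s z - cut x s y) * (ψ z - ψ y)| ≤ _
      rw [abs_mul, abs_mul]
      have h1 : |f z + f y| ≤ 2 * W := (abs_add_le _ _).trans (by linarith [hfW z, hfW y])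
      calc |f z + f y| * |cut x s z - cut x s y| * |ψ z - ψ y|
          ≤ (2 * W) * |cut x s z - cut x s y| * (Λ * dist z y) := by
            gcongr
            exact hψl z y
        _ = _ := by ring)
  -- the product identity
  have hid : ∫ q, P q ∂(m ⊗ₘ κ) = 2 * ∫ q, Q q ∂(m ⊗ₘ κ) - 1 / 2 * ∫ q, R q ∂(m ⊗ₘ κ) := by
    have e1 := h.swap_int P
    have e2 := h.swap_int Q
    have i1 := h.swap_integrable iP
    have i2 := h.swap_integrable iQ
    have e3 : (fun q => P q + P q.swap) = fun q => 2 * (Q q + Q q.swap) - R q := by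
      funext q
      simp only [hP, hQ, hR, Prod.fst_swap, Prod.snd_swap]
      ring
    have e4 : ∫ q, (P q + P q.swap) ∂(m ⊗ₘ κ) = 2 * ∫ q, P q ∂(m ⊗ₘ κ) := by
      rw [integral_add iP i1, e1]; ring
    have e5 : ∫ q, (2 * (Q q + Q q.swap) - R q) ∂(m ⊗ₘ κ)
        = 4 * ∫ q, Q q ∂(m ⊗ₘ κ) - ∫ q, R q ∂(m ⊗ₘ κ) := by
      have i3 : Integrable (fun q => 2 * (Q q + Q q.swap)) (m ⊗ₘ κ) := (iQ.add i2).const_mul 2
      rw [integral_sub i3 iR, integral_const_mul, integral_add iQ i2, e2]
      ring
    rw [e3, e5] at e4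
    linarith
  have hbound : ∫ q, P q ∂(m ⊗ₘ κ) ≤ 12 * Λ * δ * Nc * t * M := by
    have h1 := abs_le.1 bQ
    have h2 := abs_le.1 bR
    have h3 : W * e = δ * Nc * t := by
      rw [hW, he]
      field_simp
    have h4 : 2 * (4 * Λ * W * e * M) + 1 / 2 * (4 * (2 * W * Λ) * (Nc * t / s) * M)
        = 12 * Λ * (W * e) * M := by
      rw [he]; ring
    rw [hid]
    rw [h3] at h4
    nlinarith [h1.2, h2.1]
  -- conclusion
  have hPm : Measurable P := (hcm.comp measurable_fst).mul
    (((hfc.measurable.comp measurable_fst).sub (hfc.measurable.comp measurable_snd)).mul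
      ((hψc.measurable.comp measurable_fst).sub (hψc.measurable.comp measurable_snd)))
  calc ∫⁻ z in closedBall x (2 * s), ∫⁻ y, ENNReal.ofReal ((f z - f y) ^ 2) ∂κ z ∂m
      ≤ ∫⁻ z in closedBall x (2 * s), ∫⁻ y, ENNReal.ofReal (P (z, y)) ∂κ z ∂m := by
        refine setLIntegral_mono' isClosed_closedBall.measurableSet fun z hz => ?_
        refine lintegral_mono fun y => ENNReal.ofReal_le_ofReal ?_
        show (f z - f y) ^ 2 ≤ cut x s z * ((f z - f y) * (ψ z - ψ y))
        rw [cut_eq_one hs hz, one_mul]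
        exact clip_sq_le
    _ ≤ ∫⁻ z, ∫⁻ y, ENNReal.ofReal (P (z, y)) ∂κ z ∂m := setLIntegral_le_lintegral _ _
    _ = ∫⁻ q, ENNReal.ofReal (P q) ∂(m ⊗ₘ κ) := by
        rw [Measure.lintegral_compProd hPm.ennreal_ofReal]
    _ = ENNReal.ofReal (∫ q, P q ∂(m ⊗ₘ κ)) := by
        rw [ofReal_integral_eq_lintegral_ofReal iP (ae_of_all _ hP0)]
    _ ≤ _ := ENNReal.ofReal_le_ofReal hbound

end

end

end Pool.Agent.BDRY
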