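import Pool.Agent.Work.MP_209cb6_gt.Defs

/-!
# Volume step: data

`p v` (`v` in a finite net `V` of the unit sphere) are far points in the direction `v`,
`Φ` is the map whose coordinates are the distance functions of the coordinate directions, and
`ψ v` is the defect between the distance function of the direction `v` and `⟨v, Φ⟩`.
-/

set_option autoImplicit false

open Metric Set

namespace Pool.Agent.BDRY

universe u

/-- Data of the volume step at the point `x` and the scale `s`. -/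
structure ColData {X : Type u} [MetricSpace X] (n : ℕ) (ε0 δ s D0 : ℝ) (x : X) (V : Finset (E n))
    (p : E n → X) (Φ : X → E n) (ψ : E n → X → ℝ) : Prop where
  norm_V : ∀ v ∈ V, ‖v‖ = 1
  net : ∀ u : E n, ‖u‖ = 1 → ∃ v ∈ V, ‖u - v‖ ≤ ε0
  far : ∀ v ∈ V, ∀ z ∈ closedBall x (3 * s), s ≤ dist z (p v) ∧ dist z (p v) ≤ D0
  lip : ∀ y z, dist (Φ y) (Φ z) ≤ (n + 1) * dist y z
  zero : Φ x = 0
  incr : ∀ v ∈ V, ∀ y z, inner ℝ v (Φ z - Φ y) = (dist y (p v) - dist z (p v)) - (ψ v z - ψ v y)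
  small : ∀ v ∈ V, ∀ z ∈ closedBall x (2 * s), |ψ v z| ≤ δ * s
  norm_Φ : ∀ z ∈ closedBall x (2 * s), |‖Φ z‖ - dist z x| ≤ δ * s
  dense : ∀ u : E n, ‖u‖ ≤ s → ∃ z ∈ closedBall x (2 * s), dist (Φ z) u ≤ δ * s

/-- `(q, a)` is a bad pair: some defect moves by more than `ε1 d(q,a)` between `q` and `a`. -/
def BadPair {X : Type u} [MetricSpace X] {n : ℕ} (ε1 s : ℝ) (x : X) (V : Finset (E n))
    (ψ : E n → X → ℝ) (i : X × X) : Prop :=
  i.1 ∈ closedBall x s ∧ i.2 ∈ closedBall x (2 * s) ∧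
    ∃ v ∈ V, ε1 * dist i.1 i.2 < |ψ v i.2 - ψ v i.1|

end Pool.Agent.BDRY
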