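import Pool.Agent.Work.MP_209cb6_gt.B2.ColCover
import Pool.Agent.Work.MP_209cb6_gt.Col.Data

/-!
# Volume step: the contact argument at the scale `s`

The same argument as in `B2/ColCover.lean` (`col_cover`), at an arbitrary scale and for the data of
`Col/Data.lean`: all points of the Euclidean ball of radius `(1 - θ) s` are images of good points
or lie in small balls around images of centres of bad pairs.
-/

set_option autoImplicit false

open MeasureTheory MeasureTheory.Measure Metric Set Filter Topology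
open scoped ENNReal NNReal InnerProductSpace

namespace Pool.Agent.BDRY

universe u

theorem ColData.contact {X : Type u} [MetricSpace X] [ProperSpace X] [MeasurableSpace X]
    [BorelSpace X] (hgeo : Geod X) {n : ℕ} {ε0 ε1 δ s D0 θ B : ℝ} {x : X} {V : Finset (E n)}
    {p : E n → X} {Φ : X → E n} {ψ : E n → X → ℝ} (h : ColData n ε0 δ s D0 x V p Φ ψ)
    (hs : 0 < s) (hδ : 0 < δ) (hε0 : ε0 ≤ 1 / 64) (hε10 : 0 < ε1) (hε1 : ε1 ≤ 1 / 64)
    (hθ : 0 < θ) (hθ1 : θ ≤ 1) (hδθ : 8 * δ ≤ θ) (hδε : 16 * δ ≤ ε1)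
    (hB : ∀ F : Finset (X × X), (∀ i ∈ F, BadPair ε1 s x V ψ i) →
      ((F : Set (X × X)).PairwiseDisjoint fun i => closedBall i.1 (4 * dist i.1 i.2)) →
      ∑ i ∈ F, dist i.1 i.2 ^ (n + 1) ≤ B) :
    volume (closedBall (0 : E n) ((1 - θ) * s)) ≤
      ENNReal.ofReal (((1 + ε1) / (1 - ε0)) ^ (n + 1)) *
        (μHE[n + 1] : Measure X) (ball x s) +
      ENNReal.ofReal ((14 * (n + 1)) ^ (n + 1) * B) * volume (closedBall (0 : E n) 1) := by
  set L : ℝ := n + 1 with hLdef
  have hL : 1 ≤ L := by
    have : (0 : ℝ) ≤ n := Nat.cast_nonneg n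
    linarith
  set K := closedBall x ((1 - θ / 4) * s) with hK
  have hKs : ∀ q ∈ K, q ∈ closedBall x s := fun q hq => by
    rw [hK, mem_closedBall] at hq
    rw [mem_closedBall]
    nlinarith
  have hK2 : ∀ q ∈ K, q ∈ closedBall x (2 * s) := fun q hq =>
    closedBall_subset_closedBall (by linarith) (hKs q hq)
  set G : Set X := {q | q ∈ K ∧ ∀ a ∈ closedBall x (2 * s), ∀ w ∈ V,
    |ψ w a - ψ w q| ≤ ε1 * dist q a} with hG
  have hcont : Continuous Φ := by
    have : LipschitzWith (Real.toNNReal L) Φ := LipschitzWith.of_dist_le_mul fun a b => by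
      rw [Real.coe_toNNReal L (by linarith)]
      exact h.lip a b
    exact this.continuous
  have hcomp : IsCompact (Φ '' K) := (isCompact_closedBall x _).image hcont
  -- radii of bad pairs
  set t : Set (X × X) := {i | BadPair ε1 s x V ψ i} with ht
  have hpos : ∀ i ∈ t, 0 < dist i.1 i.2 := by
    rintro i ⟨-, -, w, -, hw⟩
    refine dist_pos.2 fun he => ?_
    rw [← he, dist_self, sub_self, abs_zero, mul_zero] at hw
    exact lt_irrefl _ hw
  have hsm : ∀ i ∈ t, dist i.1 i.2 ≤ s := by
    rintro i ⟨h1, h2, w, hw, h3⟩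
    have h4 := h.small w hw _ (closedBall_subset_closedBall (by linarith) h1)
    have h5 := h.small w hw _ h2
    have h6 : |ψ w i.2 - ψ w i.1| ≤ 2 * (δ * s) := (abs_sub _ _).trans (by linarith)
    have h7 : ε1 * dist i.1 i.2 < ε1 * s := by nlinarith
    exact (lt_of_mul_lt_mul_left h7 hε10.le).le
  -- Vitali
  obtain ⟨S, hSt, hdisj, hcov⟩ := Vitali.exists_disjoint_subfamily_covering_enlargement
    (fun i : X × X => closedBall i.1 (4 * dist i.1 i.2)) t (fun i => dist i.1 i.2) 2 (by norm_num)
    (fun i hi => (hpos i hi).le) s (fun i hi => hsm i hi) (fun i hi => ⟨i.1, mem_closedBall_self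
      (by have := hpos i hi; positivity)⟩)
  have hScount : S.Countable := by
    refine hdisj.countable_of_nonempty_interior fun i hi => ?_
    refine Nonempty.mono ball_subset_interior_closedBall ?_
    exact nonempty_ball.2 (by have := hpos i (hSt hi); positivity)
  -- covering
  have hbadcov : ∀ i ∈ t, ∃ j ∈ S, dist (Φ i.1) (Φ j.1) ≤ 12 * L * dist j.1 j.2 ∧
      dist i.1 i.2 ≤ 2 * dist j.1 j.2 := by
    intro i hi
    obtain ⟨j, hj, ⟨z, hz1, hz2⟩, hle⟩ := hcov i hi
    refine ⟨j, hj, ?_, hle⟩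
    have hz1' : dist z i.1 ≤ 4 * dist i.1 i.2 := hz1
    have hz2' : dist z j.1 ≤ 4 * dist j.1 j.2 := hz2
    have h1 : dist i.1 j.1 ≤ 12 * dist j.1 j.2 := by
      have := dist_triangle_left i.1 j.1 z
      linarith
    calc dist (Φ i.1) (Φ j.1) ≤ L * dist i.1 j.1 := h.lip _ _
      _ ≤ L * (12 * dist j.1 j.2) := by gcongr
      _ = 12 * L * dist j.1 j.2 := by ring
  have hsub : closedBall (0 : E n) ((1 - θ) * s) ⊆ Φ '' G ∪ ⋃ i ∈ S,
      closedBall (Φ i.1) (14 * L * dist i.1 i.2) := by
    intro u hu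
    have hu' : ‖u‖ ≤ (1 - θ) * s := by simpa using hu
    by_cases huK : u ∈ Φ '' K
    · obtain ⟨q, hq, rfl⟩ := huK
      by_cases hqG : q ∈ G
      · exact Or.inl ⟨q, hqG, rfl⟩
      · right
        have h1 : ∃ a ∈ closedBall x (2 * s), ∃ w ∈ V, ε1 * dist q a < |ψ w a - ψ w q| := by
          by_contra hcon
          push Not at hcon
          exact hqG ⟨hq, hcon⟩
        obtain ⟨a, ha, w, hw, hlt⟩ := h1
        obtain ⟨j, hj, h3, -⟩ := hbadcov (q, a) ⟨hKs q hq, ha, w, hw, hlt⟩
        refine mem_iUnion₂.2 ⟨j, hj, ?_⟩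
        have h4 := hpos j (hSt hj)
        show dist (Φ q) (Φ j.1) ≤ 14 * L * dist j.1 j.2
        have h5 : 0 ≤ L * dist j.1 j.2 := by positivity
        have h3' : dist (Φ q) (Φ j.1) ≤ 12 * L * dist j.1 j.2 := h3
        linarith
    · right
      obtain ⟨a0, ha0, ha0'⟩ := h.dense u (by nlinarith)
      have hδs : 0 < δ * s := by positivity
      have hδs8 : 8 * (δ * s) ≤ θ * s := by nlinarith
      have hθs : 0 < θ * s := by positivity
      have ha0K : a0 ∈ K := by
        have h1 := (abs_le.1 (h.norm_Φ a0 ha0)).1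
        have h2 : ‖Φ a0‖ ≤ ‖u‖ + δ * s := by
          rw [dist_eq_norm] at ha0'
          have h4 := norm_sub_norm_le (Φ a0) u
          linarith
        show dist a0 x ≤ (1 - θ / 4) * s
        linarith
      obtain ⟨y, ⟨q, hq, rfl⟩, hy⟩ := hcomp.exists_infDist_eq_dist ⟨Φ a0, a0, ha0K, rfl⟩ u
      set ρ := infDist u (Φ '' K) with hρ
      have hρ0 : 0 < ρ := (hcomp.isClosed.notMem_iff_infDist_pos ⟨Φ a0, a0, ha0K, rfl⟩).1 huK
      have hρδ : ρ ≤ δ * s := by
        have : ρ ≤ dist u (Φ a0) := infDist_le_dist_of_mem ⟨a0, ha0K, rfl⟩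
        rw [dist_comm] at this
        exact this.trans ha0'
      have hqx : dist q x ≤ (1 - θ) * s + 2 * (δ * s) := by
        have h1 := (abs_le.1 (h.norm_Φ q (hK2 q hq))).1
        have h2 : ‖Φ q‖ ≤ ‖u‖ + ρ := by
          have h3 : dist u (Φ q) = ρ := hy.symm
          rw [dist_eq_norm] at h3
          have h4 := norm_sub_norm_le (Φ q) u
          rw [norm_sub_rev] at h4
          linarith
        linarith
      -- direction
      have hn : ‖u - Φ q‖ = ρ := by rw [← dist_eq_norm, ← hy]
      obtain ⟨w, hw, hw2⟩ := h.net (ρ⁻¹ • (u - Φ q)) (by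
        rw [norm_smul, norm_inv, hn, Real.norm_of_nonneg hρ0.le, inv_mul_cancel₀ hρ0.ne'])
      have hfar := (h.far w hw q (closedBall_subset_closedBall (by linarith) (hKs q hq))).1
      have hdp : 0 < dist q (p w) := hs.trans_le hfar
      have hδ1 : δ ≤ 1 := by linarith
      have hρd : ρ ≤ dist q (p w) := by nlinarith
      obtain ⟨q', hq'1, hq'2⟩ := hgeo q (p w) (ρ / dist q (p w)) (by positivity)
        ((div_le_one hdp).2 hρd)
      have e1 : dist q q' = ρ := by rw [hq'1]; field_simp
      have e2 : dist q' (p w) = dist q (p w) - ρ := by rw [hq'2]; field_simp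
      have hq'K : q' ∈ K := by
        show dist q' x ≤ (1 - θ / 4) * s
        have := dist_triangle q' q x
        rw [dist_comm q' q, e1] at this
        linarith
      have hbad : ∃ w' ∈ V, ε1 * ρ < |ψ w' q' - ψ w' q| := by
        by_contra hcon
        push Not at hcon
        have hD : ∀ w' ∈ V, ⟪w', Φ q' - Φ q⟫_ℝ ≤ (1 + ε1) * ρ := by
          intro w' hw'
          have h1 := hcon w' hw'
          have h3 := (abs_le.1 h1).1
          have h4 : dist q (p w') - dist q' (p w') ≤ ρ := by
            have := dist_triangle q q' (p w')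
            rw [e1] at this
            linarith
          rw [h.incr w' hw' q q']
          linarith
        have hD2 : (1 - 1 / 32) * ρ ≤ ⟪w, Φ q' - Φ q⟫_ℝ := by
          have h1 := hcon w hw
          have h3 := (abs_le.1 h1).2
          rw [h.incr w hw q q', e2]
          have h4 : ε1 * ρ ≤ 1 / 64 * ρ := by gcongr
          linarith
        have h5 := step_close h.net hε0 hε1 hρ0 hD (h.norm_V w hw) hD2
        have h6 : ‖u - Φ q - ρ • w‖ ≤ ε0 * ρ := by
          have h7 : u - Φ q - ρ • w = ρ • (ρ⁻¹ • (u - Φ q) - w) := by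
            rw [smul_sub, smul_smul, mul_inv_cancel₀ hρ0.ne', one_smul]
          rw [h7, norm_smul, Real.norm_of_nonneg hρ0.le, mul_comm]
          gcongr
        have h8 : dist u (Φ q') ≤ ε0 * ρ + ρ / 2 := by
          rw [dist_eq_norm]
          have h9 : u - Φ q' = (u - Φ q - ρ • w) - ((Φ q' - Φ q) - ρ • w) := by abel
          rw [h9]
          exact (norm_sub_le _ _).trans (add_le_add h6 h5)
        have h10 : ρ ≤ dist u (Φ q') := infDist_le_dist_of_mem ⟨q', hq'K, rfl⟩
        have h11 : ε0 * ρ ≤ 1 / 64 * ρ := by gcongr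
        linarith
      obtain ⟨w', hw', hlt⟩ := hbad
      obtain ⟨j, hj, h3, h4⟩ := hbadcov (q, q') ⟨hKs q hq, hK2 q' hq'K, w', hw', by
          show ε1 * dist q q' < _
          rw [e1]; exact hlt⟩
      refine mem_iUnion₂.2 ⟨j, hj, ?_⟩
      have h5 := hpos j (hSt hj)
      have h3' : dist (Φ q) (Φ j.1) ≤ 12 * L * dist j.1 j.2 := h3
      have h4' : ρ ≤ 2 * dist j.1 j.2 := by
        have : dist q q' ≤ 2 * dist j.1 j.2 := h4
        rwa [e1] at this
      have h6 := dist_triangle u (Φ q) (Φ j.1)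
      have h7 : dist u (Φ q) = ρ := hy.symm
      show dist u (Φ j.1) ≤ 14 * L * dist j.1 j.2
      have h8 : dist j.1 j.2 ≤ L * dist j.1 j.2 := le_mul_of_one_le_left h5.le hL
      linarith
  -- the good part
  have hgoodpart : volume (Φ '' G) ≤ ENNReal.ofReal (((1 + ε1) / (1 - ε0)) ^ (n + 1)) *
      (μHE[n + 1] : Measure X) (ball x s) := by
    rw [← EuclideanSpace.euclideanHausdorffMeasure_eq_volume (n + 1)]
    have h1 : (μHE[n + 1] : Measure (E n)) (Φ '' G) ≤
        ENNReal.ofReal (((1 + ε1) / (1 - ε0)) ^ (n + 1)) * (μHE[n + 1] : Measure X) G := by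
      refine muHE_image_lip (n + 1) (div_nonneg (by linarith) (by linarith)) ?_
      intro a ha q hq
      have h2 : ∀ w ∈ V, ⟪w, Φ a - Φ q⟫_ℝ ≤ (1 + ε1) * dist a q := by
        intro w hw
        have h3 := (abs_le.1 (hq.2 a (hK2 a ha.1) w hw)).1
        rw [h.incr w hw q a]
        rw [dist_comm q a] at h3
        have h4 := dist_triangle q a (p w)
        rw [dist_comm q a] at h4
        linarith
      have h5 := norm_le_of_net h.net h2
      rw [dist_eq_norm (Φ a), div_mul_eq_mul_div, le_div_iff₀ (by linarith)]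
      exact h5
    refine h1.trans ?_
    gcongr
    intro q hq
    have h2 : dist q x ≤ (1 - θ / 4) * s := hq.1
    rw [mem_ball]
    nlinarith
  -- the bad part
  have hvb : ∀ (c : E n) (r : ℝ), 0 ≤ r → volume (closedBall c r) =
      ENNReal.ofReal (r ^ (n + 1)) * volume (closedBall (0 : E n) 1) := by
    intro c r hr
    rw [Measure.addHaar_closedBall' volume c hr]
    simp
  have hbadpart : volume (⋃ i ∈ S, closedBall (Φ i.1) (14 * L * dist i.1 i.2)) ≤
      ENNReal.ofReal ((14 * L) ^ (n + 1) * B) * volume (closedBall (0 : E n) 1) := by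
    calc volume (⋃ i ∈ S, closedBall (Φ i.1) (14 * L * dist i.1 i.2))
        ≤ ∑' i : S, volume (closedBall (Φ i.1.1) (14 * L * dist i.1.1 i.1.2)) :=
          measure_biUnion_le _ hScount _
      _ = ∑' i : S, volume (closedBall (0 : E n) 1) *
            ENNReal.ofReal ((14 * L) ^ (n + 1) * dist i.1.1 i.1.2 ^ (n + 1)) := by
          refine tsum_congr fun i => ?_
          rw [hvb _ _ (by positivity), mul_pow (14 * L), mul_comm]
      _ = volume (closedBall (0 : E n) 1) *
            ∑' i : S, ENNReal.ofReal ((14 * L) ^ (n + 1) * dist i.1.1 i.1.2 ^ (n + 1)) := by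
          rw [ENNReal.tsum_mul_left]
      _ ≤ volume (closedBall (0 : E n) 1) * ENNReal.ofReal ((14 * L) ^ (n + 1) * B) := by
          gcongr
          refine ENNReal.summable.tsum_le_of_sum_le fun F => ?_
          have h1 := hB (F.map ⟨Subtype.val, Subtype.val_injective⟩) (by
            intro i hi
            obtain ⟨q, -, rfl⟩ := Finset.mem_map.1 hi
            exact hSt q.2) (by
            intro i hi j hj hij
            obtain ⟨i', -, rfl⟩ := Finset.mem_map.1 (Finset.mem_coe.1 hi)
            obtain ⟨j', -, rfl⟩ := Finset.mem_map.1 (Finset.mem_coe.1 hj)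
            exact hdisj i'.2 j'.2 hij)
          rw [Finset.sum_map] at h1
          rw [← ENNReal.ofReal_sum_of_nonneg fun i _ => by positivity]
          refine ENNReal.ofReal_le_ofReal ?_
          rw [← Finset.mul_sum]
          exact mul_le_mul_of_nonneg_left h1 (by positivity)
      _ = _ := mul_comm _ _
  calc volume (closedBall (0 : E n) ((1 - θ) * s))
      ≤ volume (Φ '' G) + volume (⋃ i ∈ S, closedBall (Φ i.1) (14 * L * dist i.1 i.2)) :=
        (measure_mono hsub).trans (measure_union_le _ _)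
    _ ≤ _ := add_le_add hgoodpart hbadpart

end Pool.Agent.BDRY
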