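import Pool.Agent.Work.MP_209cb6_gt.Col.Setup
import Pool.Agent.Work.MP_209cb6_gt.Col.Contact

/-!
# Volume step (Colding): a ball which is almost isometric to a Euclidean ball has almost
Euclidean volume

Hypotheses: the contraction property, the reference measure is the Hausdorff measure, and there are
symmetric Markov kernels with the second moment and overlap properties of the heat kernel.
-/

set_option autoImplicit false

open MeasureTheory MeasureTheory.Measure ProbabilityTheory Metric Set Filter Topology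
open scoped ENNReal NNReal InnerProductSpace

namespace Pool.Agent.BDRY

universe u

theorem sum_badPair {X : Type u} [MetricSpace X] {n : ℕ} {ε1 s B : ℝ} {x : X} {V : Finset (E n)}
    {ψ : E n → X → ℝ}
    (hone : ∀ v ∈ V, ∀ F : Finset (X × X), (∀ i ∈ F, i.1 ∈ closedBall x s ∧
      i.2 ∈ closedBall x (2 * s) ∧ ε1 * dist i.1 i.2 < |ψ v i.2 - ψ v i.1|) →
      ((F : Set (X × X)).PairwiseDisjoint fun i => closedBall i.1 (4 * dist i.1 i.2)) →
      ∑ i ∈ F, dist i.1 i.2 ^ (n + 1) ≤ B)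
    (F : Finset (X × X)) (hF : ∀ i ∈ F, BadPair ε1 s x V ψ i)
    (hdisj : (F : Set (X × X)).PairwiseDisjoint fun i => closedBall i.1 (4 * dist i.1 i.2)) :
    ∑ i ∈ F, dist i.1 i.2 ^ (n + 1) ≤ V.card * B := by
  classical
  calc ∑ i ∈ F, dist i.1 i.2 ^ (n + 1)
      ≤ ∑ i ∈ F, ∑ v ∈ V, if ε1 * dist i.1 i.2 < |ψ v i.2 - ψ v i.1| then
          dist i.1 i.2 ^ (n + 1) else 0 := by
        refine Finset.sum_le_sum fun i hi => ?_
        obtain ⟨-, -, v, hv, h⟩ := hF i hi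
        have h1 := Finset.single_le_sum (s := V)
          (f := fun v => if ε1 * dist i.1 i.2 < |ψ v i.2 - ψ v i.1| then
            dist i.1 i.2 ^ (n + 1) else 0) (fun w _ => by
              split_ifs
              · positivity
              · exact le_rfl) hv
        simp only [if_pos h] at h1
        exact h1
    _ = ∑ v ∈ V, ∑ i ∈ F, if ε1 * dist i.1 i.2 < |ψ v i.2 - ψ v i.1| then
          dist i.1 i.2 ^ (n + 1) else 0 := Finset.sum_comm
    _ ≤ ∑ _v ∈ V, B := by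
        refine Finset.sum_le_sum fun v hv => ?_
        rw [← Finset.sum_filter]
        refine hone v hv _ (fun i hi => ?_) (fun i hi j hj hij => ?_)
        · obtain ⟨h1, h2⟩ := Finset.mem_filter.1 hi
          obtain ⟨h3, h4, -⟩ := hF i h1
          exact ⟨h3, h4, h2⟩
        · exact hdisj (Finset.mem_filter.1 hi).1 (Finset.mem_filter.1 hj).1 hij
    _ = V.card * B := by rw [Finset.sum_const, nsmul_eq_mul]

/-- The choice of the small parameter. -/
theorem exists_tau (n : ℕ) {ε : ℝ} (hε : 0 < ε) : ∃ τ : ℝ, 0 < τ ∧ τ ≤ 1 / 64 ∧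
    1 - ε ≤ ((1 - τ) / (1 + τ)) ^ (n + 1) * ((1 - τ) ^ (n + 1) - τ) := by
  have hcont : ContinuousAt (fun τ : ℝ => ((1 - τ) / (1 + τ)) ^ (n + 1) *
      ((1 - τ) ^ (n + 1) - τ)) 0 := by
    have h1 : ContinuousAt (fun τ : ℝ => (1 - τ) / (1 + τ)) 0 :=
      (continuousAt_const.sub continuousAt_id).div (continuousAt_const.add continuousAt_id)
        (by norm_num)
    exact (h1.pow _).mul (((continuousAt_const.sub continuousAt_id).pow _).sub continuousAt_id)
  have h0 : (fun τ : ℝ => ((1 - τ) / (1 + τ)) ^ (n + 1) * ((1 - τ) ^ (n + 1) - τ)) 0 = 1 := by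
    simp
  have h1 : ∀ᶠ τ in 𝓝 (0 : ℝ), 1 - ε < ((1 - τ) / (1 + τ)) ^ (n + 1) *
      ((1 - τ) ^ (n + 1) - τ) := by
    refine hcont.eventually_const_lt ?_
    rw [h0]
    linarith
  have h2 : ∀ᶠ τ in 𝓝[>] (0 : ℝ), 1 - ε < ((1 - τ) / (1 + τ)) ^ (n + 1) *
      ((1 - τ) ^ (n + 1) - τ) := h1.filter_mono nhdsWithin_le_nhds
  have h3 : ∀ᶠ τ in 𝓝[>] (0 : ℝ), τ ≤ 1 / 64 :=
    (eventually_le_nhds (by norm_num : (0 : ℝ) < 1 / 64)).filter_mono nhdsWithin_le_nhds
  have h4 : ∀ᶠ τ in 𝓝[>] (0 : ℝ), 0 < τ := eventually_mem_nhdsWithin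
  obtain ⟨τ, ha, hb, hc⟩ := (h2.and (h3.and h4)).exists
  exact ⟨τ, hc, hb, ha.le⟩

/-- **Volume step.** -/
theorem colding (n : ℕ) {A c Nc c0 ε : ℝ} (hc : 0 < c) (hNc : 0 ≤ Nc) (hc0 : 0 < c0)
    (hε : 0 < ε) :
    ∃ L d : ℝ, 16 ≤ L ∧ 0 < d ∧ ∀ (X : Type u) [MetricSpace X] [MeasurableSpace X] [BorelSpace X],
      Contr n A c X (μHE[n + 1] : Measure X) → ∀ D0 : ℝ,
      (∀ t, 0 < t → t ≤ 1 → ∃ κ : Kernel X X, HK Nc c0 D0 t (μHE[n + 1] : Measure X) κ) →
      ∀ (x : X) (R : ℝ), 0 < R → R ≤ 1 → R ≤ D0 → ∀ f : X → E n, f x = 0 →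
      (∀ a ∈ ball x R, ∀ b ∈ ball x R, |dist a b - dist (f a) (f b)| ≤ d * R) →
      (∀ y : E n, ‖y‖ < R - d * R → ∃ a ∈ ball x R, dist (f a) y ≤ d * R) →
      ENNReal.ofReal ((1 - ε) * ((volume (ball (0 : E n) 1)).toReal * (R / L) ^ (n + 1)))
        ≤ (μHE[n + 1] : Measure X) (ball x (R / L)) := by
  obtain ⟨τ, hτ0, hτ1, hτ2⟩ := exists_tau n hε
  obtain ⟨V, hV1, hV2, hV3⟩ := exists_net n hτ0
  obtain ⟨C2, hC2, HB⟩ := bse_one.{u} n (A := A) (ε1 := τ) hc hNc hc0 hτ0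
  obtain ⟨Vc, hVc'⟩ : ∃ Vc : ℝ, Vc = V.card := ⟨_, rfl⟩
  have hVc : 0 ≤ Vc := by rw [hVc']; exact Nat.cast_nonneg _
  set δt : ℝ := min (τ / 16) (τ / ((14 * (n + 1)) ^ (n + 1) * (Vc * C2) + 1)) with hδt
  have hδt0 : 0 < δt := lt_min (by positivity) (by positivity)
  set L : ℝ := max 16 (36 * (n + 3) / δt) with hL
  have hL16 : 16 ≤ L := le_max_left _ _
  have hL0 : 0 < L := by linarith
  set d : ℝ := min (1 / 4) (δt / (8 * (n + 3))) / L with hd
  have hd0 : 0 < d := div_pos (lt_min (by norm_num) (by positivity)) hL0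
  refine ⟨L, d, hL16, hd0, ?_⟩
  intro X _ _ _ hX D0 hK x R hR hR1 hRD f hf0 hiso hons
  have := hX.proper
  set m : Measure X := μHE[n + 1] with hm
  set s := R / L with hs
  have hs0 : 0 < s := div_pos hR hL0
  have hRs : R = L * s := by rw [hs]; field_simp
  have hs1 : s ≤ 1 := by
    rw [hs, div_le_one hL0]
    linarith
  have hdL : d * L = min (1 / 4) (δt / (8 * (n + 3))) := by rw [hd]; field_simp
  have hdL4 : d * L ≤ 1 / 4 := by rw [hdL]; exact min_le_left _ _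
  obtain ⟨p, Φ, ψ, hcol, hcomb⟩ := exists_colData hV1 hV2 hV3 hs0 hRs hL16 hd0.le hdL4 hRD hf0
    hiso hons
  set δ : ℝ := (n + 3) * (4 * (d * L) + 18 / L) with hδ
  have hn0 : (0 : ℝ) ≤ n := Nat.cast_nonneg n
  have hδ0 : 0 < δ := by positivity
  have hδle : δ ≤ δt := by
    have h1 : (n + 3) * (4 * (d * L)) ≤ δt / 2 := by
      have h2 : d * L ≤ δt / (8 * (n + 3)) := by rw [hdL]; exact min_le_right _ _
      calc (n + 3) * (4 * (d * L)) ≤ (n + 3) * (4 * (δt / (8 * (n + 3)))) := by gcongr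
        _ = δt / 2 := by field_simp; norm_num
    have h3 : (n + 3) * (18 / L) ≤ δt / 2 := by
      have h4 : 36 * (n + 3) / δt ≤ L := le_max_right _ _
      have h5 : 0 < 36 * ((n : ℝ) + 3) / δt := by positivity
      calc (n + 3) * (18 / L) ≤ (n + 3) * (18 / (36 * (n + 3) / δt)) := by gcongr
        _ = δt / 2 := by field_simp; norm_num
    rw [hδ, mul_add]
    linarith
  have hδ16 : 16 * δ ≤ τ := by
    have : δt ≤ τ / 16 := min_le_left _ _
    linarith
  -- the sum over the bad pairs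
  have hsum := fun F hF hdisj => sum_badPair (n := n) (V := V) (ψ := ψ) (ε1 := τ) (s := s) (x := x)
    (B := C2 * (δ * s ^ (n + 1))) (fun v hv F hF hdisj =>
      HB X m hX D0 hK x s δ hs0 hs1 hδ0.le hδ16 (ψ v) (hcomb v hv) (hcol.small v hv) F hF hdisj)
      F hF hdisj
  rw [← hVc'] at hsum
  have hct := hcol.contact hX.geod hs0 hδ0 hτ1 hτ0 hτ1 hτ0 (by linarith) (by linarith) hδ16 hsum
  -- volumes
  have hvol1 : volume (closedBall (0 : E n) 1) = ENNReal.ofReal (volume (ball (0 : E n) 1)).toReal := by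
    rw [ENNReal.ofReal_toReal measure_ball_lt_top.ne, Measure.addHaar_closedBall_eq_addHaar_ball]
  set ω := (volume (ball (0 : E n) 1)).toReal with hω
  have hω0 : 0 < ω := ENNReal.toReal_pos (measure_ball_pos volume _ one_pos).ne'
    measure_ball_lt_top.ne
  have hvol2 : volume (closedBall (0 : E n) ((1 - τ) * s))
      = ENNReal.ofReal (((1 - τ) * s) ^ (n + 1) * ω) := by
    rw [Measure.addHaar_closedBall' volume _ (by nlinarith), hvol1, ← ENNReal.ofReal_mul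
      (by have : 0 ≤ (1 - τ) * s := by nlinarith
          positivity)]
    simp
  have hfin : m (ball x s) ≠ ∞ :=
    ((measure_mono ball_subset_closedBall).trans_lt (hX.finite_ball x s)).ne
  set B' : ℝ := Vc * (C2 * (δ * s ^ (n + 1))) with hB'
  have hB'0 : 0 ≤ B' := by positivity
  rw [hvol2, hvol1, ← ENNReal.ofReal_mul (by positivity), ← ENNReal.ofReal_toReal hfin,
    ← ENNReal.ofReal_mul (by
      have : 0 ≤ (1 + τ) / (1 - τ) := div_nonneg (by linarith) (by linarith)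
      positivity), ← ENNReal.ofReal_add (by
      have : 0 ≤ (1 + τ) / (1 - τ) := div_nonneg (by linarith) (by linarith)
      positivity) (by positivity)] at hct
  have hq : 0 < (1 + τ) / (1 - τ) := div_pos (by linarith) (by linarith)
  have hct2 := (ENNReal.ofReal_le_ofReal_iff (by positivity)).1 hct
  have hBs : (14 * ((n : ℝ) + 1)) ^ (n + 1) * B' * ω ≤ τ * (s ^ (n + 1) * ω) := by
    have h1 : δ ≤ τ / ((14 * (n + 1)) ^ (n + 1) * (Vc * C2) + 1) := hδle.trans (min_le_right _ _)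
    have h2 : (14 * ((n : ℝ) + 1)) ^ (n + 1) * (Vc * C2) * δ ≤ τ := by
      have h3 : 0 < (14 * ((n : ℝ) + 1)) ^ (n + 1) * (Vc * C2) + 1 := by positivity
      rw [le_div_iff₀ h3] at h1
      nlinarith
    calc (14 * ((n : ℝ) + 1)) ^ (n + 1) * B' * ω
        = ((14 * ((n : ℝ) + 1)) ^ (n + 1) * (Vc * C2) * δ) * (s ^ (n + 1) * ω) := by
          rw [hB']; ring
      _ ≤ τ * (s ^ (n + 1) * ω) := by gcongr
  rw [← ENNReal.ofReal_toReal hfin]
  refine ENNReal.ofReal_le_ofReal ?_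
  have h1 : ((1 - τ) ^ (n + 1) - τ) * (s ^ (n + 1) * ω)
      ≤ ((1 + τ) / (1 - τ)) ^ (n + 1) * (m (ball x s)).toReal := by
    rw [mul_pow] at hct2
    linarith
  have h2 : ((1 - τ) / (1 + τ)) ^ (n + 1) * (((1 + τ) / (1 - τ)) ^ (n + 1) *
      (m (ball x s)).toReal) = (m (ball x s)).toReal := by
    rw [← mul_assoc, ← mul_pow]
    have h3 : (1 - τ) / (1 + τ) * ((1 + τ) / (1 - τ)) = 1 := by
      have h4 : 1 - τ ≠ 0 := by linarith
      field_simp
    rw [h3, one_pow, one_mul]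
  have hq' : 0 ≤ ((1 - τ) / (1 + τ)) ^ (n + 1) :=
    pow_nonneg (div_nonneg (by linarith) (by linarith)) _
  calc (1 - ε) * (ω * s ^ (n + 1))
      ≤ (((1 - τ) / (1 + τ)) ^ (n + 1) * ((1 - τ) ^ (n + 1) - τ)) * (ω * s ^ (n + 1)) := by
        gcongr
    _ = ((1 - τ) / (1 + τ)) ^ (n + 1) * (((1 - τ) ^ (n + 1) - τ) * (s ^ (n + 1) * ω)) := by ring
    _ ≤ ((1 - τ) / (1 + τ)) ^ (n + 1) * (((1 + τ) / (1 - τ)) ^ (n + 1) *
        (m (ball x s)).toReal) := mul_le_mul_of_nonneg_left h1 hq'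
    _ = _ := h2

end Pool.Agent.BDRY
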