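import Pool.Agent.Work.MP_209cb6_gt.B2.Seg
import Pool.Agent.Work.MP_209cb6_gt.Dens
import Pool.Agent.Work.MP_209cb6_gt.Point
import Pool.Agent.Work.MP_209cb6_gt.Col.Energy
import Pool.Agent.Work.MP_209cb6_gt.Col.Data

/-!
# Volume step: the sum over disjoint bad balls

From the energy estimate, the overlap of the kernels and the segment inequality: for a finite
disjoint family of balls on which a defect function oscillates, the sum of the powers of the radii
is at most `C δ s^(n+1)`.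
-/

set_option autoImplicit false
set_option linter.unusedSectionVars false

open MeasureTheory MeasureTheory.Measure ProbabilityTheory Metric Set Filter Topology
open scoped ENNReal NNReal

namespace Pool.Agent.BDRY

universe u

section step
variable {X : Type u} [MetricSpace X] [MeasurableSpace X] [BorelSpace X]
  {m : Measure X} {κ : Kernel X X} {Nc c0 D0 t : ℝ}

/-- Chebyshev for the kernel. -/
theorem cheb_ker (κ : Kernel X X) {f : X → ℝ} (hf : Measurable f) {r : ℝ} (hr : 0 < r) {z : X}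
    (hz : ∫⁻ y, ENNReal.ofReal ((f z - f y) ^ 2) ∂κ z ≤ ENNReal.ofReal (r ^ 2 / 8)) :
    κ z {y | r < |f z - f y|} ≤ 1 / 8 := by
  have hr2 : 0 < r ^ 2 := by positivity
  have h1 : ENNReal.ofReal (r ^ 2) * κ z {y | ENNReal.ofReal (r ^ 2) ≤
      ENNReal.ofReal ((f z - f y) ^ 2)} ≤ ENNReal.ofReal (r ^ 2 / 8) := by
    refine (mul_meas_ge_le_lintegral ?_ _).trans hz
    exact ((measurable_const.sub hf).pow_const 2).ennreal_ofReal
  have h2 : κ z {y | r < |f z - f y|} ≤ κ z {y | ENNReal.ofReal (r ^ 2) ≤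
      ENNReal.ofReal ((f z - f y) ^ 2)} := by
    refine measure_mono fun y hy => ?_
    refine ENNReal.ofReal_le_ofReal ?_
    rw [← sq_abs (f z - f y)]
    exact pow_le_pow_left₀ hr.le (le_of_lt hy) 2
  have h3 : ENNReal.ofReal (r ^ 2 / 8) = ENNReal.ofReal (r ^ 2) * (1 / 8) := by
    rw [div_eq_mul_one_div, ENNReal.ofReal_mul hr2.le]
    congr 1
    rw [one_div, one_div, ENNReal.ofReal_inv_of_pos (by norm_num)]
    norm_num
  rw [h3] at h1
  refine h2.trans ?_
  have h4 : ENNReal.ofReal (r ^ 2) ≠ 0 := by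
    rw [Ne, ENNReal.ofReal_eq_zero, not_le]; exact hr2
  exact (ENNReal.mul_le_mul_iff_right h4 ENNReal.ofReal_ne_top).1 h1

/-- Overlap: the function moves little between near points of small energy. -/
theorem HK.step (h : HK Nc c0 D0 t m κ) {f : X → ℝ} (hf : Measurable f) {r : ℝ} (hr : 0 < r)
    {z z' : X} (hd : dist z z' ≤ c0 * √t)
    (hz : ∫⁻ y, ENNReal.ofReal ((f z - f y) ^ 2) ∂κ z ≤ ENNReal.ofReal (r ^ 2 / 8))
    (hz' : ∫⁻ y, ENNReal.ofReal ((f z' - f y) ^ 2) ∂κ z' ≤ ENNReal.ofReal (r ^ 2 / 8)) :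
    |f z - f z'| ≤ 2 * r := by
  have hA := cheb_ker κ hf hr hz
  have hA' := cheb_ker κ hf hr hz'
  set A := {y | r < |f z - f y|} with hAdef
  set A' := {y | r < |f z' - f y|} with hA'def
  have hmA : MeasurableSet A := measurableSet_lt measurable_const (measurable_const.sub hf).abs
  have h1 := h.overlap z z' hd A hmA
  have h2 : ¬ Aᶜ ⊆ A' := by
    intro hsub
    have h3 : κ z' Aᶜ ≤ 1 / 8 := (measure_mono hsub).trans hA'
    have h4 : (1 / 2 : ℝ≥0∞) ≤ 1 / 8 + 1 / 8 := h1.trans (add_le_add hA h3)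
    have h5 := ENNReal.toReal_mono (by simp) h4
    rw [ENNReal.toReal_add (by simp) (by simp)] at h5
    norm_num at h5
  rw [Set.not_subset] at h2
  obtain ⟨y, hy1, hy2⟩ := h2
  have h3 : |f z - f y| ≤ r := not_lt.1 hy1
  have h4 : |f z' - f y| ≤ r := not_lt.1 hy2
  have h5 : f z - f z' = (f z - f y) - (f z' - f y) := by ring
  rw [h5]
  exact (abs_sub _ _).trans (by linarith)

/-- The energy at the scale `√t` at the point `z`. -/
noncomputable def En (κ : Kernel X X) (f : X → ℝ) (z : X) : ℝ≥0∞ :=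
  ∫⁻ y, ENNReal.ofReal ((f z - f y) ^ 2) ∂κ z

theorem measurable_En [IsSFiniteKernel κ] {f : X → ℝ} (hf : Measurable f) :
    Measurable (En κ f) := by
  unfold En
  have h : Measurable (Function.uncurry fun z y => ENNReal.ofReal ((f z - f y) ^ 2)) :=
    (((hf.comp measurable_fst).sub (hf.comp measurable_snd)).pow_const 2).ennreal_ofReal
  exact h.lintegral_kernel_prod_right

/-- The points of large energy. -/
noncomputable def Sbad (κ : Kernel X X) (f : X → ℝ) (x : X) (s r : ℝ) : Set X :=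
  {z | z ∈ closedBall x (2 * s) ∧ ENNReal.ofReal (r ^ 2 / 8) < En κ f z}

theorem meas_Sbad [IsSFiniteKernel κ] {f : X → ℝ} (hf : Measurable f) {x : X} {s r : ℝ}
    (hr : 0 < r) {B : ℝ}
    (hE : ∫⁻ z in closedBall x (2 * s), En κ f z ∂m ≤ ENNReal.ofReal B) :
    m (Sbad κ f x s r) ≤ ENNReal.ofReal (8 / r ^ 2 * B) := by
  have hm := measurable_En (κ := κ) hf
  have h0 : ENNReal.ofReal (r ^ 2 / 8) ≠ 0 := by
    rw [Ne, ENNReal.ofReal_eq_zero, not_le]; positivity
  have h1 : m (Sbad κ f x s r) ≤ (m.restrict (closedBall x (2 * s)))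
      {z | ENNReal.ofReal (r ^ 2 / 8) ≤ En κ f z} := by
    rw [Measure.restrict_apply (measurableSet_le measurable_const hm)]
    exact measure_mono fun z hz => ⟨hz.2.le, hz.1⟩
  have h2 := (mul_meas_ge_le_lintegral (μ := m.restrict (closedBall x (2 * s))) hm
    (ENNReal.ofReal (r ^ 2 / 8))).trans hE
  have h3 : ENNReal.ofReal (r ^ 2 / 8) * m (Sbad κ f x s r) ≤ ENNReal.ofReal B :=
    (mul_le_mul_right h1 _).trans h2
  have h4 : ENNReal.ofReal B = ENNReal.ofReal (r ^ 2 / 8) * ENNReal.ofReal (8 / r ^ 2 * B) := by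
    rw [← ENNReal.ofReal_mul (by positivity)]
    congr 1
    field_simp
  rw [h4] at h3
  exact (ENNReal.mul_le_mul_iff_right h0 ENNReal.ofReal_ne_top).1 h3

end step

/-- A defect function is a combination of distances from far points. -/
def IsComb {X : Type u} [MetricSpace X] (n : ℕ) (s D0 : ℝ) (x : X) (ψ : X → ℝ) : Prop :=
  ∃ (C : ℝ) (a : Option (Fin (n + 1)) → ℝ) (p : Option (Fin (n + 1)) → X),
    (∀ z, ψ z = comb C a p z) ∧ ∑ i, |a i| ≤ n + 2 ∧
    ∀ i, ∀ z ∈ closedBall x (3 * s), s ≤ dist z (p i) ∧ dist z (p i) ≤ D0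

/-- The sum of the powers of the radii for one defect function. -/
theorem bse_one (n : ℕ) {A c Nc c0 ε1 : ℝ} (hc : 0 < c) (hNc : 0 ≤ Nc) (hc0 : 0 < c0)
    (hε1 : 0 < ε1) :
    ∃ C2 : ℝ, 0 < C2 ∧ ∀ (X : Type u) [MetricSpace X] [MeasurableSpace X] [BorelSpace X]
      (m : Measure X), Contr n A c X m → ∀ (D0 : ℝ),
      (∀ t, 0 < t → t ≤ 1 → ∃ κ : Kernel X X, HK Nc c0 D0 t m κ) →
      ∀ (x : X) (s δ : ℝ), 0 < s → s ≤ 1 → 0 ≤ δ → 16 * δ ≤ ε1 →
      ∀ ψ : X → ℝ, IsComb n s D0 x ψ → (∀ z ∈ closedBall x (2 * s), |ψ z| ≤ δ * s) →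
      ∀ F : Finset (X × X), (∀ i ∈ F, i.1 ∈ closedBall x s ∧ i.2 ∈ closedBall x (2 * s) ∧
        ε1 * dist i.1 i.2 < |ψ i.2 - ψ i.1|) →
      ((F : Set (X × X)).PairwiseDisjoint fun i => closedBall i.1 (4 * dist i.1 i.2)) →
      ∑ i ∈ F, dist i.1 i.2 ^ (n + 1) ≤ C2 * (δ * s ^ (n + 1)) := by
  obtain ⟨ε2, hε2, c1, hc1, H⟩ := seg_osc.{u} n (A := A) hc (Λ := n + 2) (by positivity) hε1
  refine ⟨4 ^ (n + 1) * (384 * (n + 2) * Nc) / (c1 * c * ε2 ^ 2 * c0 ^ 2) + 1, by positivity, ?_⟩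
  intro X _ _ _ m hX D0 hK x s δ hs hs1 hδ hδε ψ hψ hsmall F hF hdisj
  have hrhs : 0 ≤ δ * s ^ (n + 1) := by positivity
  rcases F.eq_empty_or_nonempty with rfl | hne
  · simp only [Finset.sum_empty]
    positivity
  have := hX.proper
  have hsf : SigmaFinite m := sigmaFinite_of_ball_pt hX.finite_ball
  obtain ⟨C, a, p, hψ1, ha, hp⟩ := hψ
  have hψe : ψ = comb C a p := funext hψ1
  have hD0 : 0 ≤ D0 := by
    have := hp none x (mem_closedBall_self (by linarith))
    linarith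
  -- radii
  have hpos : ∀ i ∈ F, 0 < dist i.1 i.2 := by
    intro i hi
    refine dist_pos.2 fun h => ?_
    have h2 := (hF i hi).2.2
    rw [← h, dist_self, sub_self, abs_zero, mul_zero] at h2
    exact lt_irrefl _ h2
  have hsm : ∀ i ∈ F, dist i.1 i.2 ≤ s / 8 := by
    intro i hi
    obtain ⟨h1, h2, h3⟩ := hF i hi
    have h1' : i.1 ∈ closedBall x (2 * s) := closedBall_subset_closedBall (by linarith) h1
    have h4 := hsmall _ h1'
    have h5 := hsmall _ h2
    have h6 : |ψ i.2 - ψ i.1| ≤ 2 * (δ * s) := (abs_sub _ _).trans (by linarith)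
    have h7 : ε1 * dist i.1 i.2 < 2 * (δ * s) := h3.trans_le h6
    have h8 : 2 * (δ * s) ≤ ε1 * (s / 8) := by nlinarith
    have h9 : ε1 * dist i.1 i.2 < ε1 * (s / 8) := h7.trans_le h8
    exact (lt_of_mul_lt_mul_left h9 hε1.le).le
  obtain ⟨i0, hi0, hmin⟩ := F.exists_min_image (fun i => dist i.1 i.2) hne
  set d0 := dist i0.1 i0.2 with hd0
  have hd0p : 0 < d0 := hpos i0 hi0
  -- the time
  set τ : ℝ := min 1 (ε2 * d0 / c0) with hτ
  have hτ0 : 0 < τ := lt_min one_pos (by positivity)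
  have hτ1 : τ ≤ 1 := min_le_left _ _
  have hτ2 : c0 * τ ≤ ε2 * d0 := by
    have h1 : τ ≤ ε2 * d0 / c0 := min_le_right _ _
    calc c0 * τ ≤ c0 * (ε2 * d0 / c0) := by gcongr
      _ = ε2 * d0 := by field_simp
  set t := τ ^ 2 with ht
  have ht0 : 0 < t := by positivity
  have ht1 : t ≤ 1 := pow_le_one₀ hτ0.le hτ1
  have hsq : √t = τ := Real.sqrt_sq hτ0.le
  obtain ⟨κ, hκ⟩ := hK t ht0 ht1
  have hmk := hκ.markov
  set σ := c0 * √t with hσ
  have hσ0 : 0 < σ := by rw [hσ, hsq]; positivity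
  set r := ε2 * σ / 2 with hr
  have hr0 : 0 < r := by positivity
  set f : X → ℝ := fun z => clip (δ * s) (ψ z) with hf
  have hfc : Continuous f := by
    rw [hf, hψe]
    exact (continuous_clip _).comp (continuous_comb C a p)
  have hfψ : ∀ z ∈ closedBall x (2 * s), f z = ψ z := fun z hz => clip_of_abs_le (hsmall z hz)
  set M := m.real (closedBall x (3 * s)) with hM
  have hMpos : 0 < M := by
    rw [hM, Measure.real, ENNReal.toReal_pos_iff]
    exact ⟨(hX.pos_ball x (3 * s) (by linarith)).trans_le (measure_mono ball_subset_closedBall),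
      hX.finite_ball x _⟩
  have hE : ∫⁻ z in closedBall x (2 * s), En κ f z ∂m
      ≤ ENNReal.ofReal (12 * (n + 2) * δ * Nc * t * M) := by
    have h1 := hκ.energy hNc ht0.le hD0 hs hδ (hX.finite_ball x (3 * s)) C a p ha hp
    rw [← hψe] at h1
    exact h1
  have hS := meas_Sbad (κ := κ) hfc.measurable (x := x) (s := s) hr0 hE
  set S := Sbad κ f x s r with hSdef
  have hlip : ∀ y z, |ψ y - ψ z| ≤ (n + 2) * dist y z := by
    rw [hψe]; exact comb_lip C a p ha
  -- each ball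
  have hball : ∀ i ∈ F, ENNReal.ofReal c1 * m (closedBall i.1 (dist i.1 i.2))
      ≤ m (S ∩ closedBall i.1 (4 * dist i.1 i.2)) := by
    intro i hi
    obtain ⟨h1, h2, h3⟩ := hF i hi
    have hi8 := hsm i hi
    have hip := hpos i hi
    have hsub : closedBall i.1 (4 * dist i.1 i.2) ⊆ closedBall x (2 * s) := by
      refine closedBall_subset_closedBall' ?_
      rw [mem_closedBall] at h1
      linarith
    refine H X m hX i.1 (dist i.1 i.2) σ S f hσ0 ?_ (by linarith) ?_ ?_ i.2 ?_ i.1 ?_ ?_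
    · rw [hσ, hsq]
      exact hτ2.trans (mul_le_mul_of_nonneg_left (hmin i hi) hε2.le)
    · intro y hy z hz
      rw [hfψ y (hsub hy), hfψ z (hsub hz)]
      exact hlip y z
    · intro y hy z hz hyS hzS hyz
      have e1 : En κ f y ≤ ENNReal.ofReal (r ^ 2 / 8) := by
        by_contra hcon
        exact hyS ⟨hsub hy, not_le.1 hcon⟩
      have e2 : En κ f z ≤ ENNReal.ofReal (r ^ 2 / 8) := by
        by_contra hcon
        exact hzS ⟨hsub hz, not_le.1 hcon⟩
      refine (hκ.step hfc.measurable hr0 hyz e1 e2).trans (le_of_eq ?_)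
      rw [hr]; ring
    · rw [mem_closedBall, dist_comm]
    · exact mem_closedBall_self dist_nonneg
    · rw [hfψ _ h2, hfψ _ (closedBall_subset_closedBall (by linarith) h1)]
      exact h3.le
  -- lower bound of the measure of the balls
  have hlow : ∀ i ∈ F, c * (dist i.1 i.2 / (4 * s)) ^ (n + 1) * M
      ≤ m.real (closedBall i.1 (dist i.1 i.2)) := by
    intro i hi
    have h1 := (hF i hi).1
    have hi8 := hsm i hi
    have hip := hpos i hi
    have h2 := dens_ball_far hX hc.le i.1 (r := dist i.1 i.2) (R := 4 * s) hip (by linarith)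
      (by linarith)
    refine le_trans ?_ h2
    have h3 : M ≤ m.real (closedBall i.1 (4 * s)) := by
      refine measureReal_mono ?_ (hX.finite_ball _ _).ne
      refine closedBall_subset_closedBall' ?_
      rw [mem_closedBall, dist_comm] at h1
      linarith
    exact mul_le_mul_of_nonneg_left h3 (by positivity)
  -- sum
  have hsum1 : ∑ i ∈ F, ENNReal.ofReal c1 * m (closedBall i.1 (dist i.1 i.2)) ≤ m S := by
    refine (Finset.sum_le_sum hball).trans ?_
    have hmS : MeasurableSet S := by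
      rw [hSdef]
      exact isClosed_closedBall.measurableSet.inter
        (measurableSet_lt measurable_const (measurable_En hfc.measurable))
    rw [← measure_biUnion_finset (fun i hi j hj hij =>
      (hdisj hi hj hij).mono inter_subset_right inter_subset_right)
      (fun i _ => hmS.inter isClosed_closedBall.measurableSet)]
    exact measure_mono (iUnion₂_subset fun i _ => inter_subset_left)
  have hsum2 : c1 * ∑ i ∈ F, m.real (closedBall i.1 (dist i.1 i.2))
      ≤ 8 / r ^ 2 * (12 * (n + 2) * δ * Nc * t * M) := by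
    have h1 := hsum1.trans hS
    have h2 := ENNReal.toReal_mono ENNReal.ofReal_ne_top h1
    rw [ENNReal.toReal_ofReal (by positivity), ENNReal.toReal_sum (fun i _ =>
      (ENNReal.mul_lt_top ENNReal.ofReal_lt_top (hX.finite_ball _ _)).ne)] at h2
    refine le_trans (le_of_eq ?_) h2
    rw [Finset.mul_sum]
    refine Finset.sum_congr rfl fun i _ => ?_
    rw [ENNReal.toReal_mul, ENNReal.toReal_ofReal hc1.le]
    rfl
  have hsum3 : c1 * (c * (∑ i ∈ F, dist i.1 i.2 ^ (n + 1)) / (4 * s) ^ (n + 1) * M)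
      ≤ 8 / r ^ 2 * (12 * (n + 2) * δ * Nc * t * M) := by
    refine le_trans ?_ hsum2
    refine mul_le_mul_of_nonneg_left ?_ hc1.le
    refine le_trans (le_of_eq ?_) (Finset.sum_le_sum hlow)
    rw [Finset.mul_sum, Finset.sum_div, Finset.sum_mul]
    refine Finset.sum_congr rfl fun i _ => ?_
    rw [div_pow]
    ring
  have h5 : 8 / r ^ 2 * (12 * (n + 2) * δ * Nc * t * M)
      = 384 * (n + 2) * Nc / (ε2 ^ 2 * c0 ^ 2) * δ * M := by
    rw [hr, hσ, hsq, ht]
    field_simp
    ring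
  rw [h5] at hsum3
  have h6 : c1 * (c * (∑ i ∈ F, dist i.1 i.2 ^ (n + 1)) / (4 * s) ^ (n + 1))
      ≤ 384 * (n + 2) * Nc / (ε2 ^ 2 * c0 ^ 2) * δ := by
    refine le_of_mul_le_mul_right ?_ hMpos
    refine le_trans (le_of_eq ?_) hsum3
    ring
  have h7 : ∑ i ∈ F, dist i.1 i.2 ^ (n + 1) ≤
      4 ^ (n + 1) * (384 * (n + 2) * Nc) / (c1 * c * ε2 ^ 2 * c0 ^ 2) * (δ * s ^ (n + 1)) := by
    have h8 : ∑ i ∈ F, dist i.1 i.2 ^ (n + 1)
        = c1 * (c * (∑ i ∈ F, dist i.1 i.2 ^ (n + 1)) / (4 * s) ^ (n + 1)) *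
          ((4 * s) ^ (n + 1) / (c1 * c)) := by
      field_simp
    rw [h8]
    refine (mul_le_mul_of_nonneg_right h6 (by positivity)).trans (le_of_eq ?_)
    rw [mul_pow]
    field_simp
  refine h7.trans ?_
  have : 4 ^ (n + 1) * (384 * (n + 2) * Nc) / (c1 * c * ε2 ^ 2 * c0 ^ 2) * (δ * s ^ (n + 1)) ≤
    (4 ^ (n + 1) * (384 * (n + 2) * Nc) / (c1 * c * ε2 ^ 2 * c0 ^ 2) + 1) * (δ * s ^ (n + 1)) :=
    mul_le_mul_of_nonneg_right (by linarith) hrhs
  exact this

end Pool.Agent.BDRY
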