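import Pool.Agent.Work.MP_209cb6_gt.Col.Bse

/-!
# Volume step: the data from a near isometry with a Euclidean ball
-/

set_option autoImplicit false

open MeasureTheory Metric Set Filter Topology
open scoped ENNReal NNReal InnerProductSpace

namespace Pool.Agent.BDRY

noncomputable section

universe u

section euclid
variable {n : ℕ}

/-- A finite net of the unit sphere containing the coordinate directions. -/
theorem exists_net (n : ℕ) {ε0 : ℝ} (hε0 : 0 < ε0) : ∃ V : Finset (E n), (∀ v ∈ V, ‖v‖ = 1) ∧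
    (∀ u : E n, ‖u‖ = 1 → ∃ v ∈ V, ‖u - v‖ ≤ ε0) ∧
    ∀ j, EuclideanSpace.single j (1 : ℝ) ∈ V := by
  classical
  obtain ⟨t, ht, htf, hcov⟩ := (isCompact_sphere (0 : E n) 1).finite_cover_balls hε0
  refine ⟨htf.toFinset ∪ Finset.univ.image (fun j => EuclideanSpace.single j (1 : ℝ)), ?_, ?_, ?_⟩
  · intro v hv
    rcases Finset.mem_union.1 hv with h | h
    · have := ht (htf.mem_toFinset.1 h)
      simpa using this
    · obtain ⟨j, -, rfl⟩ := Finset.mem_image.1 h
      simp
  · intro u hu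
    have h1 : u ∈ sphere (0 : E n) 1 := by simpa using hu
    obtain ⟨v, hv, huv⟩ := mem_iUnion₂.1 (hcov h1)
    refine ⟨v, Finset.mem_union_left _ (htf.mem_toFinset.2 hv), ?_⟩
    rw [mem_ball, dist_eq_norm] at huv
    exact huv.le
  · intro j
    exact Finset.mem_union_right _ (Finset.mem_image.2 ⟨j, Finset.mem_univ _, rfl⟩)

theorem inner_eq_sum (v w : E n) : ⟪v, w⟫_ℝ = ∑ j, v j * w j := by
  rw [PiLp.inner_apply]
  refine Finset.sum_congr rfl fun j _ => ?_
  simp [mul_comm]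

theorem abs_coord_le (v : E n) (j : Fin (n + 1)) : |v j| ≤ ‖v‖ := by
  have := PiLp.norm_apply_le v j
  simpa using this

theorem norm_le_sum (v : E n) : ‖v‖ ≤ ∑ j, |v j| := by
  have h0 : 0 ≤ ∑ j, |v j| := Finset.sum_nonneg fun j _ => abs_nonneg _
  have h1 : ‖v‖ ^ 2 ≤ (∑ j, |v j|) ^ 2 := by
    rw [EuclideanSpace.norm_sq_eq]
    calc ∑ j, ‖v j‖ ^ 2 = ∑ j, |v j| * |v j| := by
          refine Finset.sum_congr rfl fun j _ => ?_
          rw [Real.norm_eq_abs, sq]
      _ ≤ ∑ j, |v j| * ∑ i, |v i| := by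
          refine Finset.sum_le_sum fun j _ => mul_le_mul_of_nonneg_left ?_ (abs_nonneg _)
          exact Finset.single_le_sum (f := fun i => |v i|) (fun i _ => abs_nonneg _)
            (Finset.mem_univ j)
      _ = (∑ j, |v j|) ^ 2 := by rw [← Finset.sum_mul, sq]
  exact abs_le_of_sq_le_sq' h1 h0 |>.2

theorem norm_le_of_coord {v : E n} {e : ℝ} (h : ∀ j, |v j| ≤ e) : ‖v‖ ≤ (n + 1) * e := by
  refine (norm_le_sum v).trans ?_
  refine (Finset.sum_le_sum fun j _ => h j).trans ?_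
  simp

/-- The distance from a far point is almost linear. -/
theorem far_dist {w v : E n} {T : ℝ} (hv : ‖v‖ = 1) (hT : 0 < T) (hw : 2 * ‖w‖ ≤ T) :
    |T - ‖w - T • v‖ - ⟪v, w⟫_ℝ| ≤ ‖w‖ ^ 2 / T := by
  have h1 : |⟪v, w⟫_ℝ| ≤ ‖w‖ := by
    have := abs_real_inner_le_norm v w
    rwa [hv, one_mul] at this
  have h1' := abs_le.1 h1
  have h2 : T - ⟪v, w⟫_ℝ ≤ ‖w - T • v‖ := by
    have h3 : ⟪v, T • v - w⟫_ℝ = T - ⟪v, w⟫_ℝ := by
      rw [inner_sub_right, inner_smul_right, real_inner_self_eq_norm_sq, hv]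
      ring
    have h4 := real_inner_le_norm v (T • v - w)
    rw [h3, hv, one_mul, norm_sub_rev] at h4
    exact h4
  have hq : 0 ≤ ‖w‖ ^ 2 / T := by positivity
  have h5 : ‖w - T • v‖ ^ 2 ≤ (T - ⟪v, w⟫_ℝ + ‖w‖ ^ 2 / T) ^ 2 := by
    have h6 : ‖w - T • v‖ ^ 2 = ‖w‖ ^ 2 - 2 * (T * ⟪v, w⟫_ℝ) + T ^ 2 := by
      rw [@norm_sub_sq ℝ, norm_smul, hv, inner_smul_right, real_inner_comm v w]
      simp only [Real.norm_eq_abs, mul_one, sq_abs, RCLike.re_to_real]
    have h7 : (T / 2) * (‖w‖ ^ 2 / T) * 2 = ‖w‖ ^ 2 := by field_simp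
    have h8 : (T / 2) * (‖w‖ ^ 2 / T) ≤ (T - ⟪v, w⟫_ℝ) * (‖w‖ ^ 2 / T) :=
      mul_le_mul_of_nonneg_right (by linarith) hq
    rw [h6]
    nlinarith [sq_nonneg ⟪v, w⟫_ℝ, sq_nonneg (‖w‖ ^ 2 / T)]
  have h9 : ‖w - T • v‖ ≤ T - ⟪v, w⟫_ℝ + ‖w‖ ^ 2 / T :=
    abs_le_of_sq_le_sq' h5 (by linarith) |>.2
  rw [abs_le]
  constructor <;> linarith

end euclid

variable {X : Type u} [MetricSpace X] {n : ℕ}

/-- The map made of the distances from the points `p (e_j)`. -/
def phiMap (x : X) (p : E n → X) (z : X) : E n :=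
  WithLp.toLp 2 fun j => dist x (p (EuclideanSpace.single j 1)) -
    dist z (p (EuclideanSpace.single j 1))

/-- The defect. -/
def psiMap (x : X) (p : E n → X) (v : E n) (z : X) : ℝ :=
  (dist x (p v) - dist z (p v)) - ⟪v, phiMap x p z⟫_ℝ

theorem phiMap_apply (x : X) (p : E n → X) (z : X) (j : Fin (n + 1)) :
    phiMap x p z j = dist x (p (EuclideanSpace.single j 1)) -
      dist z (p (EuclideanSpace.single j 1)) := rfl

theorem phiMap_lip (x : X) (p : E n → X) (y z : X) :
    dist (phiMap x p y) (phiMap x p z) ≤ (n + 1) * dist y z := by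
  rw [dist_eq_norm]
  refine norm_le_of_coord fun j => ?_
  rw [PiLp.sub_apply, phiMap_apply, phiMap_apply]
  have h1 : dist x (p (EuclideanSpace.single j 1)) - dist y (p (EuclideanSpace.single j 1)) -
      (dist x (p (EuclideanSpace.single j 1)) - dist z (p (EuclideanSpace.single j 1)))
      = dist z (p (EuclideanSpace.single j 1)) - dist y (p (EuclideanSpace.single j 1)) := by ring
  rw [h1, dist_comm y z]
  exact abs_dist_sub_le _ _ _

theorem phiMap_self (x : X) (p : E n → X) : phiMap x p x = 0 := by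
  ext j
  rw [phiMap_apply, sub_self]
  rfl

theorem psiMap_incr (x : X) (p : E n → X) (v : E n) (y z : X) :
    ⟪v, phiMap x p z - phiMap x p y⟫_ℝ
      = (dist y (p v) - dist z (p v)) - (psiMap x p v z - psiMap x p v y) := by
  unfold psiMap
  rw [inner_sub_right]
  ring

theorem psiMap_comb {s D0 : ℝ} (x : X) (p : E n → X) {v : E n} (hv : ‖v‖ = 1)
    (h0 : ∀ z ∈ closedBall x (3 * s), s ≤ dist z (p v) ∧ dist z (p v) ≤ D0)
    (hj : ∀ j : Fin (n + 1), ∀ z ∈ closedBall x (3 * s),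
      s ≤ dist z (p (EuclideanSpace.single j 1)) ∧ dist z (p (EuclideanSpace.single j 1)) ≤ D0) :
    IsComb n s D0 x (psiMap x p v) := by
  refine ⟨dist x (p v) - ∑ j, v j * dist x (p (EuclideanSpace.single j 1)),
    fun o => o.elim (-1) (fun j => v j), fun o => o.elim (p v)
      (fun j => p (EuclideanSpace.single j 1)), ?_, ?_, ?_⟩
  · intro z
    unfold psiMap comb
    rw [inner_eq_sum, Fintype.sum_option]
    simp only [Option.elim_none, Option.elim_some]
    have h1 : ∑ j, v j * phiMap x p z j = ∑ j, v j * dist x (p (EuclideanSpace.single j 1))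
        - ∑ j, v j * dist z (p (EuclideanSpace.single j 1)) := by
      rw [← Finset.sum_sub_distrib]
      refine Finset.sum_congr rfl fun j _ => ?_
      rw [phiMap_apply]
      ring
    rw [h1]
    ring
  · rw [Fintype.sum_option]
    simp only [Option.elim_none, Option.elim_some]
    have h1 : ∑ j, |v j| ≤ ∑ _j : Fin (n + 1), (1 : ℝ) :=
      Finset.sum_le_sum fun j _ => by
        have := abs_coord_le v j
        rwa [hv] at this
    simp only [Finset.sum_const, Finset.card_univ, Fintype.card_fin, nsmul_eq_mul, mul_one] at h1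
    push_cast at h1
    rw [abs_neg, abs_one]
    linarith
  · rintro (_ | j) z hz
    · exact h0 z hz
    · exact hj j z hz

/-- **Set-up**: data of the volume step from a near isometry. -/
theorem exists_colData {V : Finset (E n)} {ε0 L d R s D0 : ℝ} {x : X} {f : X → E n}
    (hV1 : ∀ v ∈ V, ‖v‖ = 1) (hV2 : ∀ u : E n, ‖u‖ = 1 → ∃ v ∈ V, ‖u - v‖ ≤ ε0)
    (hV3 : ∀ j, EuclideanSpace.single j (1 : ℝ) ∈ V) (hs : 0 < s) (hR : R = L * s) (hL : 16 ≤ L)
    (hd : 0 ≤ d) (hdL : d * L ≤ 1 / 4) (hD0 : R ≤ D0) (hf0 : f x = 0)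
    (hiso : ∀ a ∈ ball x R, ∀ b ∈ ball x R, |dist a b - dist (f a) (f b)| ≤ d * R)
    (hons : ∀ y : E n, ‖y‖ < R - d * R → ∃ a ∈ ball x R, dist (f a) y ≤ d * R) :
    ∃ (p : E n → X) (Φ : X → E n) (ψ : E n → X → ℝ),
      ColData n ε0 ((n + 3) * (4 * (d * L) + 18 / L)) s D0 x V p Φ ψ ∧
      ∀ v ∈ V, IsComb n s D0 x (ψ v) := by
  have hL0 : 0 < L := by linarith
  have hR0 : 0 < R := by rw [hR]; positivity
  have hdR : d * R ≤ s / 4 := by
    rw [hR]
    calc d * (L * s) = d * L * s := by ring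
      _ ≤ 1 / 4 * s := by gcongr
      _ = s / 4 := by ring
  have hdR0 : 0 ≤ d * R := by positivity
  have hR16 : 16 * s ≤ R := by rw [hR]; gcongr
  have hxR : x ∈ ball x R := mem_ball_self hR0
  -- the far points
  have hex : ∀ v : E n, ∃ a : X, v ∈ V → a ∈ ball x R ∧ dist (f a) ((R / 2) • v) ≤ d * R := by
    intro v
    by_cases hv : v ∈ V
    · obtain ⟨a, ha, ha2⟩ := hons ((R / 2) • v) (by
        rw [norm_smul, hV1 v hv, Real.norm_of_nonneg (by positivity)]
        linarith)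
      exact ⟨a, fun _ => ⟨ha, ha2⟩⟩
    · exact ⟨x, fun h => absurd h hv⟩
  choose p hp using hex
  have hnorm : ∀ v ∈ V, ‖(R / 2) • v‖ = R / 2 := fun v hv => by
    rw [norm_smul, hV1 v hv, Real.norm_of_nonneg (by positivity), mul_one]
  -- distances from the far points
  have hdz : ∀ v ∈ V, ∀ z ∈ ball x R, |dist z (p v) - ‖f z - (R / 2) • v‖| ≤ 2 * (d * R) := by
    intro v hv z hz
    have h1 := abs_le.1 (hiso z hz (p v) (hp v hv).1)
    have h2 := (hp v hv).2
    have h3 := dist_triangle (f z) (f (p v)) ((R / 2) • v)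
    have h4 := dist_triangle (f z) ((R / 2) • v) (f (p v))
    rw [dist_comm ((R / 2) • v) (f (p v))] at h4
    rw [← dist_eq_norm, abs_le]
    constructor <;> linarith [h1.1, h1.2]
  have hdx : ∀ v ∈ V, |dist x (p v) - R / 2| ≤ 2 * (d * R) := by
    intro v hv
    have h1 := hdz v hv x hxR
    rw [hf0, zero_sub, norm_neg, hnorm v hv] at h1
    exact h1
  have hfar : ∀ v ∈ V, ∀ z ∈ closedBall x (3 * s), s ≤ dist z (p v) ∧ dist z (p v) ≤ D0 := by
    intro v hv z hz
    rw [mem_closedBall] at hz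
    have h1 := abs_le.1 (hdx v hv)
    have h2 := dist_triangle x z (p v)
    have h3 := dist_triangle z x (p v)
    rw [dist_comm x z] at h2
    constructor <;> linarith [h1.1, h1.2]
  have hball : ∀ z ∈ closedBall x (2 * s), z ∈ ball x R := by
    intro z hz
    rw [mem_closedBall] at hz
    rw [mem_ball]
    linarith
  have hfnorm : ∀ z ∈ ball x R, |dist z x - ‖f z‖| ≤ d * R := by
    intro z hz
    have h1 := hiso z hz x hxR
    rwa [hf0, dist_zero_right] at h1
  set e : ℝ := 4 * (d * L) + 18 / L with he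
  have he0 : 0 ≤ e := by positivity
  -- almost linearity
  have hlin : ∀ v ∈ V, ∀ z ∈ closedBall x (2 * s),
      |(dist x (p v) - dist z (p v)) - ⟪v, f z⟫_ℝ| ≤ e * s := by
    intro v hv z hz
    have hz' := hball z hz
    have h1 := abs_le.1 (hdz v hv z hz')
    have h2 := abs_le.1 (hdx v hv)
    have h3 := abs_le.1 (hfnorm z hz')
    rw [mem_closedBall] at hz
    have h4 : ‖f z‖ ≤ 3 * s := by linarith [h3.1]
    have h5 := abs_le.1 (far_dist (w := f z) (hV1 v hv) (T := R / 2) (by positivity)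
      (by linarith))
    have h6 : ‖f z‖ ^ 2 / (R / 2) ≤ 18 / L * s := by
      calc ‖f z‖ ^ 2 / (R / 2) ≤ (3 * s) ^ 2 / (R / 2) := by gcongr
        _ = 18 / L * s := by rw [hR]; field_simp; norm_num
    have h7 : e * s = 4 * (d * R) + 18 / L * s := by rw [he, hR]; ring
    rw [h7, abs_le]
    constructor <;> linarith [h1.1, h1.2, h2.1, h2.2, h5.1, h5.2]
  have hPhi : ∀ z ∈ closedBall x (2 * s), ‖phiMap x p z - f z‖ ≤ (n + 1) * (e * s) := by
    intro z hz
    refine norm_le_of_coord fun j => ?_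
    have h1 := hlin _ (hV3 j) z hz
    rw [PiLp.sub_apply, phiMap_apply]
    have h2 : ⟪EuclideanSpace.single j (1 : ℝ), f z⟫_ℝ = f z j := by
      rw [EuclideanSpace.inner_single_left]
      simp
    rw [h2] at h1
    exact h1
  have hn0 : (0 : ℝ) ≤ n := Nat.cast_nonneg n
  have hes : 0 ≤ e * s := by positivity
  have hdRe : d * R ≤ e * s := by
    have h7 : e * s = 4 * (d * R) + 18 / L * s := by rw [he, hR]; ring
    have h8 : 0 ≤ 18 / L * s := by positivity
    linarith
  refine ⟨p, phiMap x p, psiMap x p, ⟨hV1, hV2, hfar, phiMap_lip x p, phiMap_self x p,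
    fun v _ y z => psiMap_incr x p v y z, ?_, ?_, ?_⟩, ?_⟩
  · intro v hv z hz
    have h1 := abs_le.1 (hlin v hv z hz)
    have h2 : |⟪v, f z - phiMap x p z⟫_ℝ| ≤ (n + 1) * (e * s) := by
      have h3 := abs_real_inner_le_norm v (f z - phiMap x p z)
      rw [hV1 v hv, one_mul, norm_sub_rev] at h3
      exact h3.trans (hPhi z hz)
    rw [inner_sub_right] at h2
    have h4 := abs_le.1 h2
    unfold psiMap
    rw [abs_le]
    constructor <;> nlinarith [h1.1, h1.2, h4.1, h4.2]
  · intro z hz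
    have h1 := hPhi z hz
    have h2 := abs_le.1 (hfnorm z (hball z hz))
    have h3 := abs_norm_sub_norm_le (phiMap x p z) (f z)
    have h4 := abs_le.1 (h3.trans h1)
    rw [abs_le]
    constructor <;> nlinarith [h2.1, h2.2, h4.1, h4.2]
  · intro u hu
    obtain ⟨a, ha, ha2⟩ := hons u (by linarith)
    have h1 := abs_le.1 (hfnorm a ha)
    have h2 : ‖f a‖ ≤ ‖u‖ + d * R := by
      rw [dist_eq_norm] at ha2
      have := norm_sub_norm_le (f a) u
      linarith
    have h3 : a ∈ closedBall x (2 * s) := by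
      rw [mem_closedBall]
      linarith [h1.2]
    refine ⟨a, h3, ?_⟩
    have h4 := hPhi a h3
    rw [← dist_eq_norm] at h4
    have h5 := dist_triangle (phiMap x p a) (f a) u
    nlinarith
  · intro v hv
    exact psiMap_comb x p (hV1 v hv) (hfar v hv) (fun j => hfar _ (hV3 j))

end

end Pool.Agent.BDRY
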